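import Mathlib

/-!
# Realisations of the free and classical Gaussian families and the algebras `Γ_b`

`H` is a real Hilbert space, `K` a complex Hilbert space on which the von Neumann algebra `M` acts.
-/

open Filter Topology
open scoped InnerProductSpace

namespace Pool.Agent.Lib.MP_2fec48_an

/-- The mixed moments of a centred semicircular family with covariance `⟪f, g⟫`, that is, the sum
over the noncrossing pair partitions of the products of the covariances, given by the recursion
`m [] = 1`, `m (f :: l) = ∑ₖ ⟪f, l[k]⟫ * m (l.take k) * m (l.drop (k + 1))`. -/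
noncomputable def scMoment {H : Type*} [NormedAddCommGroup H] [InnerProductSpace ℝ H] :
    List H → ℝ
  | [] => 1
  | f :: l => ∑ k : Fin l.length,
      ⟪f, l.get k⟫_ℝ * scMoment (l.take k) * scMoment (l.drop (k + 1))
termination_by l => l.length
decreasing_by
  · simp only [List.length_cons, List.length_take]; omega
  · simp only [List.length_cons, List.length_drop]; omega

/-- A realisation of the setting: a von Neumann algebra `M` on `K` with the faithful trace
`τ x = ⟪Ω, x Ω⟫`, a semicircular family `G0 f` with covariance `⟪f, g⟫`, and a classical Gaussian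
family `G₁ f` with covariance `⟪f, g⟫`, which is affiliated to `M` and given by its unitaries
`W f = exp (i G₁ f)`, so that the two families are free. -/
structure Realisation (H : Type*) [NormedAddCommGroup H] [InnerProductSpace ℝ H]
    (K : Type*) [NormedAddCommGroup K] [InnerProductSpace ℂ K] [CompleteSpace K] where
  /-- the von Neumann algebra -/
  M : VonNeumannAlgebra K
  /-- the unit vector which gives the trace -/
  Ω : K
  norm_Ω : ‖Ω‖ = 1
  /-- `τ` is a trace on `M` -/
  trace : ∀ x ∈ M, ∀ y ∈ M, ⟪Ω, (x * y) Ω⟫_ℂ = ⟪Ω, (y * x) Ω⟫_ℂ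
  /-- `τ` is faithful on `M`: `τ (x* x) = ‖x Ω‖ ^ 2` -/
  faithful : ∀ x ∈ M, x Ω = 0 → x = 0
  /-- the semicircular family -/
  G0 : H →ₗ[ℝ] (K →L[ℂ] K)
  G0_mem : ∀ f, G0 f ∈ M
  G0_star : ∀ f, star (G0 f) = G0 f
  G0_moment : ∀ l : List H, ⟪Ω, (l.map G0).prod Ω⟫_ℂ = (scMoment l : ℂ)
  /-- the unitaries `exp (i G₁ f)` of the classical Gaussian family -/
  W : H → (K →L[ℂ] K)
  W_mem : ∀ f, W f ∈ M
  W_zero : W 0 = 1
  W_add : ∀ f g, W (f + g) = W f * W g
  W_star : ∀ f, star (W f) = W (-f)
  W_char : ∀ f, ⟪Ω, W f Ω⟫_ℂ = Complex.exp (-(‖f‖ : ℂ) ^ 2 / 2)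
  /-- freeness of the von Neumann algebras generated by the two families: the trace of a nonempty
  alternating product of centred elements is zero -/
  free : ∀ l : List (Bool × (K →L[ℂ] K)), l ≠ [] →
    (∀ p ∈ l, p.2 ∈ Set.centralizer (Set.centralizer (if p.1 then Set.range W else Set.range G0)) ∧
      ⟪Ω, p.2 Ω⟫_ℂ = 0) →
    l.IsChain (fun p q => p.1 ≠ q.1) → ⟪Ω, (l.map Prod.snd).prod Ω⟫_ℂ = 0

/-- The von Neumann algebra of the operators that commute with all elements of `S` and with their
adjoints. -/
noncomputable def commVN {K : Type*} [NormedAddCommGroup K] [InnerProductSpace ℂ K] [CompleteSpace K]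
    (S : Set (K →L[ℂ] K)) : VonNeumannAlgebra K where
  __ := StarSubalgebra.centralizer ℂ S
  centralizer_centralizer' := Set.centralizer_centralizer_centralizer _

namespace Realisation
variable {H : Type*} [NormedAddCommGroup H] [InnerProductSpace ℝ H]
  {K : Type*} [NormedAddCommGroup K] [InnerProductSpace ℂ K] [CompleteSpace K]

/-- `R.G1 f ξ η` : `ξ` is in the domain of the self-adjoint operator `G₁ f` and `G₁ f ξ = η`,
where `G₁ f` is the generator of the unitary group `t ↦ W (t f)`. -/
def G1 (R : Realisation H K) (f : H) (ξ η : K) : Prop :=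
  Tendsto (fun t : ℝ => (Complex.I * (t : ℂ))⁻¹ • (R.W (t • f) ξ - ξ)) (𝓝[≠] 0) (𝓝 η)

/-- `R.Y b f ξ ζ` : `ξ` is in the domain of the operator `Y_b f = √(1-b) G₀ f + √b G₁ f`
and `Y_b f ξ = ζ`. -/
def Y (R : Realisation H K) (b : ℝ) (f : H) (ξ ζ : K) : Prop :=
  ∃ η, R.G1 f ξ η ∧ ζ = (Real.sqrt (1 - b) : ℂ) • R.G0 f ξ + (Real.sqrt b : ℂ) • η

/-- The bounded operators `u` such that `u` and `u*` commute with all the operators `Y_b f`:
`u Y_b f ⊆ Y_b f u` and `u* Y_b f ⊆ Y_b f u*`. -/
def commY (R : Realisation H K) (b : ℝ) : Set (K →L[ℂ] K) :=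
  {u | ∀ f ξ ζ, R.Y b f ξ ζ → R.Y b f (u ξ) (u ζ) ∧ R.Y b f (star u ξ) (star u ζ)}

/-- `Γ_b`, the von Neumann algebra generated by the operators `Y_b f`: the commutant of the set of
the bounded operators which commute with all `Y_b f`. -/
noncomputable def Gam (R : Realisation H K) (b : ℝ) : VonNeumannAlgebra K :=
  commVN (R.commY b)

/-- The von Neumann algebra generated by both families: the double commutant of the operators
`G0 f` and `W f = exp (i G₁ f)`. -/
noncomputable def All (R : Realisation H K) : VonNeumannAlgebra K :=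
  commVN (Set.centralizer (Set.range R.G0 ∪ Set.range R.W))

end Realisation

end Pool.Agent.Lib.MP_2fec48_an
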