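import Mathlib

/-!
# A Gaussian model for one-parameter unitary groups

`exists_ext` extends a bounded linear map given on the range of `j`.
`gauss_model` : a vector `η` whose spectral distribution with respect to a one-parameter unitary
group `U` is a multiple of the standard Gaussian law lies in the domain of all powers of the
generator.
-/

open MeasureTheory ProbabilityTheory Filter Topology Complex
open scoped ENNReal InnerProductSpace

namespace Pool.Agent.Lib.MP_2fec48_an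

section Ext
variable {E H1 H2 : Type*} [AddCommGroup E] [Module ℂ E]
  [NormedAddCommGroup H1] [InnerProductSpace ℂ H1] [CompleteSpace H1]
  [NormedAddCommGroup H2] [InnerProductSpace ℂ H2] [CompleteSpace H2]

theorem exists_ext (j : E →ₗ[ℂ] H1) (f : E →ₗ[ℂ] H2) (C : ℝ)
    (h : ∀ x, ‖f x‖ ≤ C * ‖j x‖) : ∃ T : H1 →L[ℂ] H2, ∀ x, T (j x) = f x := by
  set S := (LinearMap.range j).topologicalClosure with hS
  have : CompleteSpace S := (LinearMap.range j).isClosed_topologicalClosure.completeSpace_coe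
  let j' : E →ₗ[ℂ] S :=
    j.codRestrict S (fun x => Submodule.le_topologicalClosure _ ⟨x, rfl⟩)
  have hd : DenseRange j' := by
    intro y
    rw [closure_subtype]
    have h1 : (y : H1) ∈ closure (LinearMap.range j : Set H1) := by
      have h0 : (y : H1) ∈ S := y.2
      exact h0
    refine closure_mono ?_ h1
    rintro _ ⟨x, rfl⟩
    exact ⟨j' x, ⟨x, rfl⟩, rfl⟩
  refine ⟨(f.extendOfNorm j').comp S.orthogonalProjectionOnto, fun x => ?_⟩
  have h2 : S.orthogonalProjectionOnto (j x) = j' x :=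
    Submodule.orthogonalProjectionOnto_mem_subspace_eq_self (j' x)
  rw [ContinuousLinearMap.comp_apply, h2]
  exact LinearMap.extendOfNorm_eq hd ⟨C, h⟩ x

omit [CompleteSpace H1] [CompleteSpace H2] in
theorem gram_inner {ι : Type*} (a : ι → H1) (b : ι → H2) (C : ℂ)
    (h : ∀ s t, ⟪b s, b t⟫_ℂ = C * ⟪a s, a t⟫_ℂ) (x y : ι →₀ ℂ) :
    ⟪Finsupp.linearCombination ℂ b x, Finsupp.linearCombination ℂ b y⟫_ℂ =
      C * ⟪Finsupp.linearCombination ℂ a x, Finsupp.linearCombination ℂ a y⟫_ℂ := by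
  simp only [Finsupp.linearCombination_apply, Finsupp.sum, sum_inner, inner_sum,
    inner_smul_left, inner_smul_right, h, Finset.mul_sum]
  refine Finset.sum_congr rfl fun i _ => Finset.sum_congr rfl fun k _ => ?_
  ring

omit [CompleteSpace H1] [CompleteSpace H2] in
theorem gram_norm {ι : Type*} (a : ι → H1) (b : ι → H2) (C : ℝ) (hC : 0 ≤ C)
    (h : ∀ s t, ⟪b s, b t⟫_ℂ = (C : ℂ) ^ 2 * ⟪a s, a t⟫_ℂ) (x : ι →₀ ℂ) :
    ‖Finsupp.linearCombination ℂ b x‖ = C * ‖Finsupp.linearCombination ℂ a x‖ := by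
  have h1 := gram_inner a b ((C : ℂ) ^ 2) h x x
  rw [inner_self_eq_norm_sq_to_K, inner_self_eq_norm_sq_to_K] at h1
  have h2 : ‖Finsupp.linearCombination ℂ b x‖ ^ 2 =
      (C * ‖Finsupp.linearCombination ℂ a x‖) ^ 2 := by
    have h3 : ((‖Finsupp.linearCombination ℂ b x‖ ^ 2 : ℝ) : ℂ) =
      (((C * ‖Finsupp.linearCombination ℂ a x‖) ^ 2 : ℝ) : ℂ) := by
      push_cast
      rw [mul_pow]
      exact h1
    exact Complex.ofReal_injective h3
  exact (sq_eq_sq₀ (norm_nonneg _) (by positivity)).1 h2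

end Ext

/-- The standard Gaussian law on the line. -/
noncomputable abbrev gam : Measure ℝ := gaussianReal 0 1

/-- the functions `e^{ihx} x^k` -/
noncomputable def fn (h : ℝ) (k : ℕ) : ℝ → ℂ := fun x => cexp (I * (h * x : ℝ)) * (x : ℂ) ^ k

theorem continuous_fn (h : ℝ) (k : ℕ) : Continuous (fn h k) := by
  unfold fn; fun_prop

theorem norm_fn (h : ℝ) (k : ℕ) (x : ℝ) : ‖fn h k x‖ = |x| ^ k := by
  unfold fn
  rw [norm_mul, Complex.norm_exp_I_mul_ofReal, one_mul, norm_pow, Complex.norm_real,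
    Real.norm_eq_abs]

theorem memLp_fn (h : ℝ) (k : ℕ) : MemLp (fn h k) 2 gam := by
  rw [memLp_two_iff_integrable_sq_norm (continuous_fn h k).aestronglyMeasurable]
  have h1 : Integrable (fun x : ℝ => ‖(id x : ℝ)‖ ^ (2 * k)) gam :=
    (memLp_id_gaussianReal' (μ := 0) (v := 1) (((2 * k : ℕ) : ℝ≥0∞))
      (ENNReal.natCast_ne_top _)).integrable_norm_pow'
  refine h1.congr (Eventually.of_forall fun x => ?_)
  simp only [norm_fn, id, Real.norm_eq_abs, ← pow_mul, mul_comm 2 k]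

/-- the class of `fn h k` in `L²` -/
noncomputable def Fn (h : ℝ) (k : ℕ) : Lp ℂ 2 gam := (memLp_fn h k).toLp _

theorem coeFn_Fn (h : ℝ) (k : ℕ) : Fn h k =ᵐ[gam] fn h k := MemLp.coeFn_toLp _

theorem norm_exp_sub (y : ℝ) : ‖cexp (I * (y : ℝ)) - 1 - I * y‖ ≤ 2 * y ^ 2 := by
  by_cases hy : |y| ≤ 1
  · have h1 : ‖I * (y : ℂ)‖ ≤ 1 := by simpa using hy
    have h2 := Complex.norm_exp_sub_one_sub_id_le h1
    have h3 : ‖I * (y : ℂ)‖ ^ 2 = y ^ 2 := by simp
    rw [h3] at h2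
    nlinarith [sq_nonneg y]
  · push Not at hy
    have h1 : ‖cexp (I * (y : ℝ)) - 1‖ ≤ |y| := by
      simpa using Real.norm_exp_I_mul_ofReal_sub_one_le (x := y)
    have h2 : ‖I * (y : ℂ)‖ = |y| := by simp
    have h3 := norm_sub_le (cexp (I * (y : ℝ)) - 1) (I * y)
    have h4 : |y| ≤ y ^ 2 := by
      rw [← sq_abs]; nlinarith
    linarith

theorem dq_bound (h δ : ℝ) (hδ : δ ≠ 0) (k : ℕ) :
    ‖(I * (δ : ℂ))⁻¹ • (Fn (h + δ) k - Fn h k) - Fn h (k + 1)‖ ≤
      (2 * |δ|) * ‖Fn 0 (k + 2)‖ := by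
  apply Lp.norm_le_mul_norm_of_ae_le_mul
  filter_upwards [coeFn_Fn (h + δ) k, coeFn_Fn h k, coeFn_Fn h (k + 1), coeFn_Fn 0 (k + 2),
    Lp.coeFn_sub ((I * (δ : ℂ))⁻¹ • (Fn (h + δ) k - Fn h k)) (Fn h (k + 1)),
    Lp.coeFn_smul (I * (δ : ℂ))⁻¹ (Fn (h + δ) k - Fn h k),
    Lp.coeFn_sub (Fn (h + δ) k) (Fn h k)] with x h1 h2 h3 h4 h5 h6 h7
  rw [h5, Pi.sub_apply, h6, Pi.smul_apply, h7, Pi.sub_apply, h1, h2, h3, h4, norm_fn]
  have h8 : (I * (δ : ℂ))⁻¹ • (fn (h + δ) k x - fn h k x) - fn h (k + 1) x =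
      (fn h k x) * ((I * (δ : ℂ))⁻¹ * (cexp (I * ((δ * x : ℝ) : ℂ)) - 1 - I * ((δ * x : ℝ) : ℂ))) := by
    have hδ' : (δ : ℂ) ≠ 0 := by exact_mod_cast hδ
    have hI : (I : ℂ) ≠ 0 := I_ne_zero
    unfold fn
    have h9 : cexp (I * (((h + δ) * x : ℝ) : ℂ)) =
      cexp (I * ((h * x : ℝ) : ℂ)) * cexp (I * ((δ * x : ℝ) : ℂ)) := by
      rw [← Complex.exp_add]; congr 1; push_cast; ring
    rw [h9, smul_eq_mul]
    field_simp
    push_cast
    ring
  rw [h8, norm_mul, norm_fn, norm_mul]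
  have h10 := norm_exp_sub (δ * x)
  have h11 : ‖(I * (δ : ℂ))⁻¹‖ = |δ|⁻¹ := by simp
  rw [h11]
  have hδ2 : 0 < |δ| := abs_pos.2 hδ
  calc |x| ^ k * (|δ|⁻¹ * ‖cexp (I * ((δ * x : ℝ) : ℂ)) - 1 - I * ((δ * x : ℝ) : ℂ)‖)
      ≤ |x| ^ k * (|δ|⁻¹ * (2 * (δ * x) ^ 2)) := by gcongr
    _ = 2 * |δ| * |x| ^ (k + 2) := by
        rw [mul_pow, ← sq_abs δ, ← sq_abs x]
        field_simp
        ring

theorem dq_tendsto (h : ℝ) (k : ℕ) :
    Tendsto (fun δ : ℝ => (I * (δ : ℂ))⁻¹ • (Fn (h + δ) k - Fn h k)) (𝓝[≠] 0)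
      (𝓝 (Fn h (k + 1))) := by
  rw [tendsto_iff_norm_sub_tendsto_zero]
  have h1 : Tendsto (fun δ : ℝ => (2 * |δ|) * ‖Fn 0 (k + 2)‖) (𝓝[≠] 0) (𝓝 0) := by
    have h2 : Tendsto (fun δ : ℝ => (2 * |δ|) * ‖Fn 0 (k + 2)‖) (𝓝 0)
        (𝓝 ((2 * |(0:ℝ)|) * ‖Fn 0 (k + 2)‖)) := by
      apply Continuous.tendsto
      fun_prop
    simp only [abs_zero, mul_zero, zero_mul] at h2
    exact h2.mono_left nhdsWithin_le_nhds
  refine squeeze_zero' (Eventually.of_forall fun _ => norm_nonneg _) ?_ h1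
  filter_upwards [self_mem_nhdsWithin] with δ hδ
  exact dq_bound h δ hδ k

theorem inner_Fn (s t : ℝ) (k l : ℕ) :
    ⟪Fn s k, Fn t l⟫_ℂ = ∫ x, (starRingEnd ℂ) (fn s k x) * fn t l x ∂gam := by
  rw [L2.inner_def]
  refine integral_congr_ae ?_
  filter_upwards [coeFn_Fn s k, coeFn_Fn t l] with x h1 h2
  rw [h1, h2, RCLike.inner_apply, mul_comm]

theorem inner_Fn_zero (s t : ℝ) : ⟪Fn s 0, Fn t 0⟫_ℂ = cexp (-((t - s : ℝ) : ℂ) ^ 2 / 2) := by
  rw [inner_Fn]
  have h1 := charFun_gaussianReal (μ := 0) (v := 1) (t - s)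
  rw [charFun_apply_real] at h1
  have h2 : cexp (-((t - s : ℝ) : ℂ) ^ 2 / 2) =
      cexp (((t - s : ℝ) : ℂ) * ((0 : ℝ) : ℂ) * I - ((1 : NNReal) : ℝ) * ((t - s : ℝ) : ℂ) ^ 2 / 2) := by
    congr 1
    push_cast
    ring
  rw [h2, ← h1]
  refine integral_congr_ae (Eventually.of_forall fun x => ?_)
  simp only [fn, pow_zero, mul_one, ← Complex.exp_conj, ← Complex.exp_add]
  congr 1
  simp only [map_mul, conj_I, Complex.conj_ofReal]
  push_cast
  ring

/-- the moments of the standard Gaussian law -/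
noncomputable def gmom (n : ℕ) : ℝ := ∫ x, x ^ n ∂gam

theorem inner_Fn_mom (k l : ℕ) : ⟪Fn 0 k, Fn 0 l⟫_ℂ = (gmom (k + l) : ℂ) := by
  rw [inner_Fn, gmom, ← integral_complex_ofReal]
  refine integral_congr_ae (Eventually.of_forall fun x => ?_)
  simp [fn, pow_add]

theorem gmom_zero : gmom 0 = 1 := by
  simp [gmom]

theorem gmom_one : gmom 1 = 0 := by
  simp [gmom]

theorem gmom_two : gmom 2 = 1 := by
  have h1 := variance_fun_id_gaussianReal (μ := 0) (v := 1)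
  rw [variance_eq_integral (by fun_prop)] at h1
  have h2 := integral_id_gaussianReal (μ := 0) (v := 1)
  rw [h2] at h1
  simpa [gmom] using h1

theorem memLp_exp_abs (t : ℝ) : MemLp (fun x : ℝ => Real.exp |t * x|) 2 gam := by
  rw [memLp_two_iff_integrable_sq (by fun_prop)]
  have h1 : Integrable (fun x : ℝ => Real.exp (2 * |t| * |x|)) gam :=
    integrable_exp_mul_abs (integrable_exp_mul_gaussianReal _) (integrable_exp_mul_gaussianReal _)
  refine h1.congr (Eventually.of_forall fun x => ?_)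
  simp only
  rw [← Real.exp_nat_mul, abs_mul]
  congr 1
  push_cast
  ring

/-- a vector of `L²` orthogonal to all polynomials is orthogonal to all exponentials -/
theorem orth_exp (z : Lp ℂ 2 gam) (hz : ∀ k, ⟪z, Fn 0 k⟫_ℂ = 0) (t : ℝ) :
    ⟪z, Fn t 0⟫_ℂ = 0 := by
  have hzk : ∀ k, ∫ x, (starRingEnd ℂ) (z x) * fn 0 k x ∂gam = 0 := by
    intro k
    rw [← hz k, L2.inner_def]
    refine integral_congr_ae ?_
    filter_upwards [coeFn_Fn 0 k] with x h1
    rw [h1, RCLike.inner_apply, mul_comm]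
  have hzt : ⟪z, Fn t 0⟫_ℂ = ∫ x, (starRingEnd ℂ) (z x) * fn t 0 x ∂gam := by
    rw [L2.inner_def]
    refine integral_congr_ae ?_
    filter_upwards [coeFn_Fn t 0] with x h1
    rw [h1, RCLike.inner_apply, mul_comm]
  have hzm : MemLp (fun x => (starRingEnd ℂ) (z x)) 2 gam := by
    have := (Lp.memLp z).star
    exact this
  have hint : ∀ k, Integrable (fun x => (starRingEnd ℂ) (z x) * fn 0 k x) gam := fun k =>
    hzm.integrable_mul (memLp_fn 0 k)
  have hlim : Tendsto (fun n : ℕ => ∫ x, (starRingEnd ℂ) (z x) *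
      ∑ k ∈ Finset.range n, (I * ((t * x : ℝ) : ℂ)) ^ k / (k.factorial : ℂ) ∂gam) atTop
      (𝓝 (∫ x, (starRingEnd ℂ) (z x) * fn t 0 x ∂gam)) := by
    refine tendsto_integral_of_dominated_convergence
      (fun x => ‖z x‖ * Real.exp |t * x|) ?_ ?_ ?_ ?_
    · intro n
      refine hzm.aestronglyMeasurable.mul ?_
      apply Continuous.aestronglyMeasurable
      fun_prop
    · exact (Lp.memLp z).norm.integrable_mul (memLp_exp_abs t)
    · intro n
      refine Eventually.of_forall fun x => ?_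
      rw [norm_mul, RCLike.norm_conj]
      gcongr
      calc ‖∑ k ∈ Finset.range n, (I * ((t * x : ℝ) : ℂ)) ^ k / (k.factorial : ℂ)‖
          ≤ ∑ k ∈ Finset.range n, ‖(I * ((t * x : ℝ) : ℂ)) ^ k / (k.factorial : ℂ)‖ :=
            norm_sum_le _ _
        _ = ∑ k ∈ Finset.range n, |t * x| ^ k / (k.factorial : ℝ) := by
            refine Finset.sum_congr rfl fun k _ => ?_
            rw [norm_div, norm_pow, norm_mul, Complex.norm_I, one_mul, Complex.norm_real,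
              Real.norm_eq_abs, Complex.norm_natCast]
        _ ≤ Real.exp |t * x| := Real.sum_le_exp_of_nonneg (abs_nonneg _) n
    · refine Eventually.of_forall fun x => ?_
      refine Tendsto.const_mul _ ?_
      have h1 := (NormedSpace.expSeries_div_hasSum_exp (I * ((t * x : ℝ) : ℂ))).tendsto_sum_nat
      rw [← Complex.exp_eq_exp_ℂ] at h1
      simpa [fn] using h1
  have hzero : ∀ n : ℕ, ∫ x, (starRingEnd ℂ) (z x) *
      ∑ k ∈ Finset.range n, (I * ((t * x : ℝ) : ℂ)) ^ k / (k.factorial : ℂ) ∂gam = 0 := by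
    intro n
    have h1 : ∀ x : ℝ, (starRingEnd ℂ) (z x) *
      ∑ k ∈ Finset.range n, (I * ((t * x : ℝ) : ℂ)) ^ k / (k.factorial : ℂ) =
      ∑ k ∈ Finset.range n, ((I * t) ^ k / (k.factorial : ℂ)) *
        ((starRingEnd ℂ) (z x) * fn 0 k x) := by
      intro x
      rw [Finset.mul_sum]
      refine Finset.sum_congr rfl fun k _ => ?_
      simp only [fn, zero_mul, Complex.ofReal_zero, mul_zero, Complex.exp_zero, one_mul,
        Complex.ofReal_mul]
      ring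
    simp only [h1]
    rw [integral_finsetSum _ (fun k _ => (hint k).const_mul _)]
    refine Finset.sum_eq_zero fun k _ => ?_
    rw [integral_const_mul, hzk k, mul_zero]
  rw [hzt]
  simp only [hzero] at hlim
  exact (tendsto_nhds_unique hlim tendsto_const_nhds)

section Model
variable {K : Type*} [NormedAddCommGroup K] [InnerProductSpace ℂ K] [CompleteSpace K]

/-- `(ξ, η)` is in the graph of the generator of the one-parameter group `U`. -/
def GRel (U : ℝ → K →L[ℂ] K) (ξ η : K) : Prop :=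
  Tendsto (fun t : ℝ => (I * (t : ℂ))⁻¹ • (U t ξ - ξ)) (𝓝[≠] 0) (𝓝 η)

theorem gauss_model (U : ℝ → K →L[ℂ] K) (h0 : U 0 = 1) (hadd : ∀ s t, U (s + t) = U s * U t)
    (hstar : ∀ t, star (U t) = U (-t)) (η : K)
    (hη : ∀ t : ℝ, ⟪η, U t η⟫_ℂ = (‖η‖ : ℂ) ^ 2 * cexp (-(t : ℂ) ^ 2 / 2)) :
    ∃ v : ℕ → K, v 0 = η ∧ (∀ k, GRel U (v k) (v (k + 1))) ∧
      (∀ k, v k ∈ closure (Submodule.span ℂ (Set.range fun t => U t η) : Set K)) ∧
      (∀ k l, ⟪v k, v l⟫_ℂ = (‖η‖ : ℂ) ^ 2 * (gmom (k + l) : ℂ)) ∧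
      (∀ z, (∀ k, ⟪z, v k⟫_ℂ = 0) → ∀ t, ⟪z, U t η⟫_ℂ = 0) := by
  have hgram : ∀ s t : ℝ, ⟪U s η, U t η⟫_ℂ = (‖η‖ : ℂ) ^ 2 * ⟪Fn s 0, Fn t 0⟫_ℂ := by
    intro s t
    have h1 : ⟪U s η, U t η⟫_ℂ = ⟪η, U (-s + t) η⟫_ℂ := by
      rw [hadd, ← hstar, mul_apply_eq_comp, ContinuousLinearMap.star_eq_adjoint,
        ContinuousLinearMap.adjoint_inner_right]
    rw [h1, hη, inner_Fn_zero]
    congr 3
    push_cast
    ring
  set j : (ℝ →₀ ℂ) →ₗ[ℂ] Lp ℂ 2 gam := Finsupp.linearCombination ℂ (fun t => Fn t 0) with hj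
  set f : (ℝ →₀ ℂ) →ₗ[ℂ] K := Finsupp.linearCombination ℂ (fun t => U t η) with hf
  have hnorm : ∀ x, ‖f x‖ = ‖η‖ * ‖j x‖ := fun x =>
    gram_norm (fun t => Fn t 0) (fun t => U t η) ‖η‖ (norm_nonneg _) hgram x
  obtain ⟨J, hJ⟩ := exists_ext j f ‖η‖ (fun x => (hnorm x).le)
  have hj1 : ∀ t, j (Finsupp.single t 1) = Fn t 0 := fun t => by simp [hj]
  have hf1 : ∀ t, f (Finsupp.single t 1) = U t η := fun t => by simp [hf]
  have hJ0 : ∀ t, J (Fn t 0) = U t η := fun t => by rw [← hj1, hJ, hf1]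
  -- the closed span of the exponentials
  have hmem : ∀ k, ∀ t, Fn t k ∈ closure (LinearMap.range j : Set (Lp ℂ 2 gam)) := by
    intro k
    induction k with
    | zero => intro t; exact subset_closure ⟨_, hj1 t⟩
    | succ k ih =>
      intro t
      have h1 : closure (LinearMap.range j : Set (Lp ℂ 2 gam)) =
        ((LinearMap.range j).topologicalClosure : Set (Lp ℂ 2 gam)) := rfl
      rw [h1]
      refine (LinearMap.range j).isClosed_topologicalClosure.mem_of_tendsto (dq_tendsto t k)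
        (Eventually.of_forall fun δ => ?_)
      exact Submodule.smul_mem _ _ (Submodule.sub_mem _ (ih _) (ih _))
  have hinner : ∀ F ∈ closure (LinearMap.range j : Set (Lp ℂ 2 gam)),
      ∀ G ∈ closure (LinearMap.range j : Set (Lp ℂ 2 gam)),
      ⟪J F, J G⟫_ℂ = (‖η‖ : ℂ) ^ 2 * ⟪F, G⟫_ℂ := by
    have step1 : ∀ x, ∀ G ∈ closure (LinearMap.range j : Set (Lp ℂ 2 gam)),
        ⟪J (j x), J G⟫_ℂ = (‖η‖ : ℂ) ^ 2 * ⟪j x, G⟫_ℂ := by
      intro x G hG
      have hcl : IsClosed {G | ⟪J (j x), J G⟫_ℂ = (‖η‖ : ℂ) ^ 2 * ⟪j x, G⟫_ℂ} :=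
        isClosed_eq (by fun_prop) (by fun_prop)
      refine closure_minimal ?_ hcl hG
      rintro _ ⟨y, rfl⟩
      change ⟪J (j x), J (j y)⟫_ℂ = (‖η‖ : ℂ) ^ 2 * ⟪j x, j y⟫_ℂ
      rw [hJ, hJ]
      exact gram_inner (fun t => Fn t 0) (fun t => U t η) _ hgram x y
    intro F hF G hG
    have hcl : IsClosed {F | ⟪J F, J G⟫_ℂ = (‖η‖ : ℂ) ^ 2 * ⟪F, G⟫_ℂ} :=
      isClosed_eq (by fun_prop) (by fun_prop)
    refine closure_minimal ?_ hcl hF
    rintro _ ⟨x, rfl⟩
    exact step1 x G hG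
  have hU : ∀ k h t, U h (J (Fn t k)) = J (Fn (t + h) k) := by
    intro k
    induction k with
    | zero =>
      intro h t
      rw [hJ0, hJ0, add_comm, hadd, mul_apply_eq_comp]
    | succ k ih =>
      intro h t
      have h1 : Tendsto (fun δ : ℝ => U h (J ((I * (δ : ℂ))⁻¹ • (Fn (t + δ) k - Fn t k))))
          (𝓝[≠] 0) (𝓝 (U h (J (Fn t (k + 1))))) :=
        (((U h).continuous.comp J.continuous).tendsto _).comp (dq_tendsto t k)
      have h2 : Tendsto (fun δ : ℝ => J ((I * (δ : ℂ))⁻¹ • (Fn (t + h + δ) k - Fn (t + h) k)))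
          (𝓝[≠] 0) (𝓝 (J (Fn (t + h) (k + 1)))) :=
        (J.continuous.tendsto _).comp (dq_tendsto (t + h) k)
      refine tendsto_nhds_unique h1 (h2.congr fun δ => ?_)
      simp only [map_smul, map_sub, ih]
      rw [show t + δ + h = t + h + δ by ring]
  refine ⟨fun k => J (Fn 0 k), ?_, ?_, ?_, ?_, ?_⟩
  · change J (Fn 0 0) = η
    rw [hJ0, h0, one_apply_eq_self]
  · intro k
    have h1 : Tendsto (fun δ : ℝ => J ((I * (δ : ℂ))⁻¹ • (Fn (0 + δ) k - Fn 0 k)))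
          (𝓝[≠] 0) (𝓝 (J (Fn 0 (k + 1)))) :=
        (J.continuous.tendsto _).comp (dq_tendsto 0 k)
    refine h1.congr fun δ => ?_
    simp only [map_smul, map_sub, hU]
  · intro k
    have hcl : IsClosed (J ⁻¹' closure (Submodule.span ℂ (Set.range fun t => U t η) : Set K)) :=
      isClosed_closure.preimage J.continuous
    refine closure_minimal ?_ hcl (hmem k 0)
    rintro _ ⟨x, rfl⟩
    refine subset_closure ?_
    rw [hJ, hf]
    have := LinearMap.mem_range_self (Finsupp.linearCombination ℂ (fun t => U t η)) x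
    rwa [Finsupp.range_linearCombination] at this
  · intro k l
    change ⟪J (Fn 0 k), J (Fn 0 l)⟫_ℂ = _
    rw [hinner _ (hmem k 0) _ (hmem l 0), inner_Fn_mom]
  · intro z hz t
    rw [← hJ0, ← ContinuousLinearMap.adjoint_inner_left]
    refine orth_exp _ (fun k => ?_) t
    rw [ContinuousLinearMap.adjoint_inner_left]
    exact hz k

end Model

end Pool.Agent.Lib.MP_2fec48_an
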