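import Mathlib

/-!
# Reduction of graphs, closure arguments, weak nullity
-/

open Filter Topology
open scoped InnerProductSpace

namespace Pool.Agent.Lib.MP_2fec48_an

section Proj
variable {E : Type*} [NormedAddCommGroup E] [InnerProductSpace ℂ E]

/-- An operator that, with its adjoint, preserves a subspace commutes with the projection. -/
theorem starProjection_comm (S : Submodule ℂ E) [S.HasOrthogonalProjection]
    (U V : E →L[ℂ] E) (hUV : ∀ x y, ⟪V x, y⟫_ℂ = ⟪x, U y⟫_ℂ)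
    (hU : ∀ x ∈ S, U x ∈ S) (hV : ∀ x ∈ S, V x ∈ S) (v : E) :
    S.starProjection (U v) = U (S.starProjection v) := by
  refine (Submodule.eq_starProjection_of_mem_of_inner_eq_zero (hU _ (S.starProjection_apply_mem v))
    ?_)
  intro w hw
  rw [← map_sub, ← inner_conj_symm, ← hUV, inner_conj_symm]
  exact Submodule.starProjection_inner_eq_zero v _ (hV w hw)

end Proj

variable {K : Type*} [NormedAddCommGroup K] [InnerProductSpace ℂ K] [CompleteSpace K]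

/-- `u ⊕ u` on the Hilbert space `K ⊕ K`. -/
noncomputable def dbl (u : K →L[ℂ] K) : WithLp 2 (K × K) →L[ℂ] WithLp 2 (K × K) :=
  ((WithLp.prodContinuousLinearEquiv 2 ℂ K K).symm : (K × K) →L[ℂ] WithLp 2 (K × K)) ∘L
    (u.prodMap u) ∘L ((WithLp.prodContinuousLinearEquiv 2 ℂ K K) : WithLp 2 (K × K) →L[ℂ] (K × K))

omit [CompleteSpace K] in
theorem dbl_apply (u : K →L[ℂ] K) (p : K × K) :
    dbl u (WithLp.toLp 2 p) = WithLp.toLp 2 (u p.1, u p.2) := rfl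

theorem dbl_adj (u : K →L[ℂ] K) (x y : WithLp 2 (K × K)) :
    ⟪dbl (star u) x, y⟫_ℂ = ⟪x, dbl u y⟫_ℂ := by
  obtain ⟨x, rfl⟩ := WithLp.toLp_surjective 2 x
  obtain ⟨y, rfl⟩ := WithLp.toLp_surjective 2 y
  rw [dbl_apply, dbl_apply, WithLp.prod_inner_apply, WithLp.prod_inner_apply]
  simp only [ContinuousLinearMap.star_eq_adjoint, ContinuousLinearMap.adjoint_inner_left]

theorem graph_reduce (G : Submodule ℂ (K × K)) (C : Set (K →L[ℂ] K))
    (hstar : ∀ u ∈ C, star u ∈ C) (hG : ∀ u ∈ C, ∀ p ∈ G, (u p.1, u p.2) ∈ G)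
    (e : K →L[ℂ] K) (he : ∀ x ∈ Set.centralizer C, x * e = e * x) :
    ∀ p ∈ G, (e p.1, e p.2) ∈ closure (G : Set (K × K)) := by
  set φ := WithLp.prodContinuousLinearEquiv 2 ℂ K K with hφ
  set G2 : Submodule ℂ (WithLp 2 (K × K)) := G.comap (φ : WithLp 2 (K × K) →ₗ[ℂ] K × K) with hG2
  have hmemG2 : ∀ p : K × K, WithLp.toLp 2 p ∈ G2 ↔ p ∈ G := fun p => Iff.rfl
  set B := G2.topologicalClosure with hB
  have : CompleteSpace B := G2.isClosed_topologicalClosure.completeSpace_coe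
  set P := B.starProjection with hP
  -- elements of `C` preserve `B`
  have hpres : ∀ u ∈ C, ∀ x ∈ B, dbl u x ∈ B := by
    intro u hu x hx
    have h1 : IsClosed ((dbl u) ⁻¹' (B : Set (WithLp 2 (K × K)))) :=
      G2.isClosed_topologicalClosure.preimage (dbl u).continuous
    have h2 : (closure (G2 : Set (WithLp 2 (K × K)))) ⊆
        (dbl u) ⁻¹' (B : Set (WithLp 2 (K × K))) := by
      refine closure_minimal ?_ h1
      intro y hy
      obtain ⟨p, rfl⟩ := WithLp.toLp_surjective 2 y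
      refine G2.le_topologicalClosure ?_
      rw [dbl_apply]
      exact (hmemG2 _).2 (hG u hu p ((hmemG2 _).1 hy))
    exact h2 hx
  have hcomm : ∀ u ∈ C, ∀ x, P (dbl u x) = dbl u (P x) := by
    intro u hu x
    exact starProjection_comm B (dbl u) (dbl (star u)) (dbl_adj u) (hpres u hu)
      (hpres _ (hstar u hu)) x
  -- matrix entries
  let i1 : K →L[ℂ] WithLp 2 (K × K) := (φ.symm : (K × K) →L[ℂ] WithLp 2 (K × K)) ∘L
    (ContinuousLinearMap.inl ℂ K K)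
  let i2 : K →L[ℂ] WithLp 2 (K × K) := (φ.symm : (K × K) →L[ℂ] WithLp 2 (K × K)) ∘L
    (ContinuousLinearMap.inr ℂ K K)
  let q1 : WithLp 2 (K × K) →L[ℂ] K := (ContinuousLinearMap.fst ℂ K K) ∘L
    (φ : WithLp 2 (K × K) →L[ℂ] K × K)
  let q2 : WithLp 2 (K × K) →L[ℂ] K := (ContinuousLinearMap.snd ℂ K K) ∘L
    (φ : WithLp 2 (K × K) →L[ℂ] K × K)
  have hi1 : ∀ (u : K →L[ℂ] K) x, i1 (u x) = dbl u (i1 x) := by
    intro u x
    change WithLp.toLp 2 (u x, (0 : K)) = WithLp.toLp 2 (u x, u 0)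
    rw [map_zero]
  have hi2 : ∀ (u : K →L[ℂ] K) x, i2 (u x) = dbl u (i2 x) := by
    intro u x
    change WithLp.toLp 2 ((0 : K), u x) = WithLp.toLp 2 (u 0, u x)
    rw [map_zero]
  have hq1 : ∀ (u : K →L[ℂ] K) x, q1 (dbl u x) = u (q1 x) := fun u x => rfl
  have hq2 : ∀ (u : K →L[ℂ] K) x, q2 (dbl u x) = u (q2 x) := fun u x => rfl
  have hent : ∀ (i : K →L[ℂ] WithLp 2 (K × K)) (q : WithLp 2 (K × K) →L[ℂ] K),
      (∀ (u : K →L[ℂ] K) x, i (u x) = dbl u (i x)) →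
      (∀ (u : K →L[ℂ] K) x, q (dbl u x) = u (q x)) →
      ∀ x, q (P (i (e x))) = e (q (P (i x))) := by
    intro i q hi hq x
    have h1 : (q ∘L P ∘L i) ∈ Set.centralizer C := by
      rw [Set.mem_centralizer_iff]
      intro u hu
      ext y
      change u (q (P (i y))) = q (P (i (u y)))
      rw [hi, hcomm u hu, hq]
    have h2 := he _ h1
    exact congrArg (fun T : K →L[ℂ] K => T x) h2
  have hPe : ∀ x, P (dbl e x) = dbl e (P x) := by
    intro x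
    obtain ⟨p, rfl⟩ := WithLp.toLp_surjective 2 x
    have h1 : WithLp.toLp 2 p = i1 p.1 + i2 p.2 := by
      change WithLp.toLp 2 p = WithLp.toLp 2 (p.1, (0 : K)) + WithLp.toLp 2 ((0 : K), p.2)
      rw [← WithLp.toLp_add]
      simp
    have h2 : ∀ z w : WithLp 2 (K × K), q1 z = q1 w → q2 z = q2 w → z = w := by
      intro z w h3 h4
      obtain ⟨z, rfl⟩ := WithLp.toLp_surjective 2 z
      obtain ⟨w, rfl⟩ := WithLp.toLp_surjective 2 w
      congr 1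
      exact Prod.ext h3 h4
    rw [h1]
    refine h2 _ _ ?_ ?_
    · rw [map_add, map_add, map_add, map_add, map_add, ← hi1, ← hi2, hent i1 q1 hi1 hq1,
        hent i2 q1 hi2 hq1, map_add, hq1, hq1]
    · rw [map_add, map_add, map_add, map_add, map_add, ← hi1, ← hi2, hent i1 q2 hi1 hq2,
        hent i2 q2 hi2 hq2, map_add, hq2, hq2]
  intro p hp
  have h1 : WithLp.toLp 2 p ∈ B := G2.le_topologicalClosure ((hmemG2 _).2 hp)
  have h2 : dbl e (WithLp.toLp 2 p) ∈ B := by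
    rw [← Submodule.starProjection_eq_self_iff, ← hP, hPe, hP,
      Submodule.starProjection_eq_self_iff.2 h1]
  have h3 : dbl e (WithLp.toLp 2 p) ∈ closure (G2 : Set (WithLp 2 (K × K))) := h2
  have h4 : φ (dbl e (WithLp.toLp 2 p)) ∈ closure (φ '' (G2 : Set (WithLp 2 (K × K)))) := by
    refine image_closure_subset_closure_image φ.continuous ⟨_, h3, rfl⟩
  have h5 : φ (dbl e (WithLp.toLp 2 p)) = (e p.1, e p.2) := rfl
  rw [h5] at h4
  refine closure_mono ?_ h4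
  rintro _ ⟨x, hx, rfl⟩
  exact hx

omit [CompleteSpace K] in
/-- A symmetric relation with dense domain is closable. -/
theorem closable (G : Submodule ℂ (K × K)) (hsym : ∀ p ∈ G, ∀ q ∈ G, ⟪p.2, q.1⟫_ℂ = ⟪p.1, q.2⟫_ℂ)
    (hd : Dense {ξ : K | ∃ ζ, (ξ, ζ) ∈ G}) (ζ : K)
    (hζ : ((0 : K), ζ) ∈ closure (G : Set (K × K))) : ζ = 0 := by
  have h1 : ∀ q ∈ G, ⟪ζ, q.1⟫_ℂ = 0 := by
    intro q hq
    have hcl : IsClosed {p : K × K | ⟪p.2, q.1⟫_ℂ = ⟪p.1, q.2⟫_ℂ} :=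
      isClosed_eq (by fun_prop) (by fun_prop)
    have h2 : ((0 : K), ζ) ∈ {p : K × K | ⟪p.2, q.1⟫_ℂ = ⟪p.1, q.2⟫_ℂ} :=
      closure_minimal (fun p hp => hsym p hp q hq) hcl hζ
    have h3 : ⟪ζ, q.1⟫_ℂ = ⟪(0 : K), q.2⟫_ℂ := h2
    rw [h3, inner_zero_left]
  have h3 : ζ ∈ {x : K | ⟪ζ, x⟫_ℂ = 0} := by
    have hcl : IsClosed {x : K | ⟪ζ, x⟫_ℂ = 0} := isClosed_eq (by fun_prop) (by fun_prop)
    refine closure_minimal ?_ hcl (hd ζ)
    rintro x ⟨y, hy⟩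
    exact h1 _ hy
  exact inner_self_eq_zero.1 h3

/-- The reduction lemma in the form in which it is used. -/
theorem reduce_mem (G : Submodule ℂ (K × K)) (C : Set (K →L[ℂ] K))
    (hstar : ∀ u ∈ C, star u ∈ C) (hG : ∀ u ∈ C, ∀ p ∈ G, (u p.1, u p.2) ∈ G)
    (e : K →L[ℂ] K) (he : ∀ x ∈ Set.centralizer C, x * e = e * x)
    (hsym : ∀ p ∈ G, ∀ q ∈ G, ⟪p.2, q.1⟫_ℂ = ⟪p.1, q.2⟫_ℂ)
    (hd : Dense {ξ : K | ∃ ζ, (ξ, ζ) ∈ G}) {ξ ζ : K} (h : (ξ, ζ) ∈ G) (hξ : e ξ = ξ) :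
    e ζ = ζ := by
  have h1 := graph_reduce G C hstar hG e he _ h
  simp only [hξ] at h1
  have h2 : (ξ, ζ) ∈ G.topologicalClosure := G.le_topologicalClosure h
  have h3 : (ξ, e ζ) ∈ G.topologicalClosure := h1
  have h4 := Submodule.sub_mem _ h3 h2
  have h5 : ((0 : K), e ζ - ζ) ∈ closure (G : Set (K × K)) := by
    have : (ξ, e ζ) - (ξ, ζ) = ((0 : K), e ζ - ζ) := by simp
    rw [← this]
    exact h4
  exact sub_eq_zero.1 (closable G hsym hd _ h5)

omit [CompleteSpace K] in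
/-- Sesquilinear identities extend to closed spans. -/
theorem sesq_closure (B1 B2 C1 C2 : K →L[ℂ] K) (c : ℂ) (S S' : Set K)
    (h : ∀ x ∈ S, ∀ y ∈ S', ⟪B1 x, B2 y⟫_ℂ = c * ⟪C1 x, C2 y⟫_ℂ) :
    ∀ x ∈ closure (Submodule.span ℂ S : Set K), ∀ y ∈ closure (Submodule.span ℂ S' : Set K),
      ⟪B1 x, B2 y⟫_ℂ = c * ⟪C1 x, C2 y⟫_ℂ := by
  have step1 : ∀ x ∈ S, ∀ y ∈ closure (Submodule.span ℂ S' : Set K),
      ⟪B1 x, B2 y⟫_ℂ = c * ⟪C1 x, C2 y⟫_ℂ := by
    intro x hx y hy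
    let L1 : K →L[ℂ] ℂ := (innerSL ℂ (B1 x)) ∘L B2
    let L2 : K →L[ℂ] ℂ := c • ((innerSL ℂ (C1 x)) ∘L C2)
    have h1 : Set.EqOn L1 L2 S' := fun z hz => h x hx z hz
    exact ContinuousLinearMap.eqOn_closure_span h1 hy
  intro x hx y hy
  let L1 : K →L[ℂ] ℂ := (innerSL ℂ (B2 y)) ∘L B1
  let L2 : K →L[ℂ] ℂ := (starRingEnd ℂ c) • ((innerSL ℂ (C2 y)) ∘L C1)
  have h1 : Set.EqOn L1 L2 S := by
    intro z hz
    have h3 := congrArg (starRingEnd ℂ) (step1 z hz y hy)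
    rw [map_mul, inner_conj_symm, inner_conj_symm] at h3
    exact h3
  have h4 : ⟪B2 y, B1 x⟫_ℂ = (starRingEnd ℂ c) * ⟪C2 y, C1 x⟫_ℂ :=
    ContinuousLinearMap.eqOn_closure_span h1 hx
  have h5 := congrArg (starRingEnd ℂ) h4
  rw [map_mul, inner_conj_symm, inner_conj_symm, Complex.conj_conj] at h5
  exact h5

/-- weak nullity of a sequence -/
def WN (T : ℕ → K) : Prop := ∀ z, Tendsto (fun i => ⟪z, T i⟫_ℂ) atTop (𝓝 0)

omit [CompleteSpace K] in
theorem WN.add {T T' : ℕ → K} (h : WN T) (h' : WN T') : WN (fun i => T i + T' i) := by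
  intro z
  simpa [inner_add_right] using (h z).add (h' z)

omit [CompleteSpace K] in
theorem WN.smul {T : ℕ → K} (h : WN T) (c : ℂ) : WN (fun i => c • T i) := by
  intro z
  simpa [inner_smul_right] using (h z).const_mul c

omit [CompleteSpace K] in
/-- a bounded sequence of pairwise orthogonal vectors is weakly null -/
theorem wn_of_orth {T : ℕ → K} {C : ℝ} (hC : ∀ i, ‖T i‖ ≤ C)
    (ho : ∀ i k, i ≠ k → ⟪T i, T k⟫_ℂ = 0) : WN T := by
  intro z
  have hC0 : 0 ≤ C := (norm_nonneg _).trans (hC 0)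
  have hbd : ∀ s : Finset ℕ, ∑ i ∈ s, ‖⟪z, T i⟫_ℂ‖ ^ 2 ≤ (C * ‖z‖) ^ 2 := by
    intro s
    set B := ∑ i ∈ s, ‖⟪z, T i⟫_ℂ‖ ^ 2 with hB
    have hB0 : 0 ≤ B := Finset.sum_nonneg fun i _ => by positivity
    set w := ∑ i ∈ s, ⟪T i, z⟫_ℂ • T i with hw
    have h1 : ⟪z, w⟫_ℂ = (B : ℂ) := by
      rw [hw, inner_sum, hB]
      push_cast
      refine Finset.sum_congr rfl fun i _ => ?_
      rw [inner_smul_right, ← inner_conj_symm, ← Complex.normSq_eq_conj_mul_self,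
        Complex.normSq_eq_norm_sq]
      push_cast
      rfl
    have h2 : ‖w‖ ^ 2 ≤ C ^ 2 * B := by
      have h3 : ⟪w, w⟫_ℂ = ((∑ i ∈ s, ‖⟪z, T i⟫_ℂ‖ ^ 2 * ‖T i‖ ^ 2 : ℝ) : ℂ) := by
        rw [hw, sum_inner]
        push_cast
        refine Finset.sum_congr rfl fun i hi => ?_
        rw [inner_sum, Finset.sum_eq_single i]
        · rw [inner_smul_left, inner_smul_right, inner_self_eq_norm_sq_to_K, inner_conj_symm,
            ← mul_assoc]
          congr 1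
          rw [← inner_conj_symm (T i) z, mul_comm, ← Complex.normSq_eq_conj_mul_self,
            Complex.normSq_eq_norm_sq]
          push_cast
          rfl
        · intro k _ hk
          rw [inner_smul_left, inner_smul_right, ho i k (Ne.symm hk), mul_zero, mul_zero]
        · intro hi'; exact absurd hi hi'
      have h4 : ‖w‖ ^ 2 = ∑ i ∈ s, ‖⟪z, T i⟫_ℂ‖ ^ 2 * ‖T i‖ ^ 2 := by
        rw [inner_self_eq_norm_sq_to_K] at h3
        have h3' : ((‖w‖ ^ 2 : ℝ) : ℂ) =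
          ((∑ i ∈ s, ‖⟪z, T i⟫_ℂ‖ ^ 2 * ‖T i‖ ^ 2 : ℝ) : ℂ) := by
          rw [← h3]; push_cast; rfl
        exact Complex.ofReal_injective h3'
      rw [h4, hB, Finset.mul_sum]
      refine Finset.sum_le_sum fun i _ => ?_
      rw [mul_comm]
      gcongr
      exact hC i
    have h5 : B ≤ ‖z‖ * ‖w‖ := by
      have h6 := norm_inner_le_norm (𝕜 := ℂ) z w
      rw [h1, Complex.norm_real, Real.norm_of_nonneg hB0] at h6
      exact h6
    have h7 : B ^ 2 ≤ ‖z‖ ^ 2 * (C ^ 2 * B) := by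
      calc B ^ 2 ≤ (‖z‖ * ‖w‖) ^ 2 := by gcongr
        _ = ‖z‖ ^ 2 * ‖w‖ ^ 2 := by ring
        _ ≤ _ := by gcongr
    rcases hB0.eq_or_lt with h8 | h8
    · rw [← h8]; positivity
    · have h9 : B * B ≤ ((C * ‖z‖) ^ 2) * B := by nlinarith
      exact le_of_mul_le_mul_right h9 h8
  have hsum : Summable fun i => ‖⟪z, T i⟫_ℂ‖ ^ 2 :=
    summable_of_sum_le (fun i => by positivity) hbd
  have h1 := hsum.tendsto_atTop_zero
  rw [tendsto_zero_iff_norm_tendsto_zero]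
  have h2 : Tendsto (fun i => Real.sqrt (‖⟪z, T i⟫_ℂ‖ ^ 2)) atTop (𝓝 (Real.sqrt 0)) :=
    (Real.continuous_sqrt.tendsto 0).comp h1
  rw [Real.sqrt_zero] at h2
  refine h2.congr fun i => ?_
  exact Real.sqrt_sq (norm_nonneg _)

end Pool.Agent.Lib.MP_2fec48_an
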