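import Mathlib
import Pool.Agent.Lib.MP_2fec48_an.Defs
import Pool.Agent.Lib.MP_2fec48_an.Graph
import Pool.Agent.Lib.MP_2fec48_an.Gauss

/-!
# Algebraic consequences of freeness
-/

open Filter Topology
open scoped InnerProductSpace

namespace Pool.Agent.Lib.MP_2fec48_an

namespace Realisation
variable {H : Type*} [NormedAddCommGroup H] [InnerProductSpace ℝ H]
  {K : Type*} [NormedAddCommGroup K] [InnerProductSpace ℂ K] [CompleteSpace K]
  (R : Realisation H K)

/-- the two free subalgebras -/
noncomputable def part (i : Bool) : Subalgebra ℂ (K →L[ℂ] K) :=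
  Subalgebra.centralizer ℂ (Set.centralizer (if i then Set.range R.W else Set.range R.G0))

theorem mem_part_iff (i : Bool) (x : K →L[ℂ] K) : x ∈ R.part i ↔
    x ∈ Set.centralizer (Set.centralizer (if i then Set.range R.W else Set.range R.G0)) := Iff.rfl

theorem G0_mem_part (f : H) : R.G0 f ∈ R.part false := by
  rw [mem_part_iff]
  exact Set.subset_centralizer_centralizer (by simp)

theorem W_mem_part (f : H) : R.W f ∈ R.part true := by
  rw [mem_part_iff]
  exact Set.subset_centralizer_centralizer (by simp)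

theorem mem_M_of_part {i : Bool} {x : K →L[ℂ] K} (hx : x ∈ R.part i) : x ∈ R.M := by
  rw [mem_part_iff] at hx
  have h1 : (if i then Set.range R.W else Set.range R.G0) ⊆ (R.M : Set (K →L[ℂ] K)) := by
    cases i
    · rintro _ ⟨f, rfl⟩; exact R.G0_mem f
    · rintro _ ⟨f, rfl⟩; exact R.W_mem f
  have h2 := Set.centralizer_subset (Set.centralizer_subset h1) hx
  rw [VonNeumannAlgebra.centralizer_centralizer] at h2
  exact h2

theorem star_mem_part {i : Bool} {x : K →L[ℂ] K} (hx : x ∈ R.part i) : star x ∈ R.part i := by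
  rw [mem_part_iff, Set.mem_centralizer_iff] at hx ⊢
  intro g hg
  have h1 : star g ∈ Set.centralizer (if i then Set.range R.W else Set.range R.G0) := by
    rw [Set.mem_centralizer_iff] at hg ⊢
    intro m hm
    have hm' : star m ∈ (if i then Set.range R.W else Set.range R.G0) := by
      cases i
      · obtain ⟨f, rfl⟩ := hm
        exact ⟨f, (R.G0_star f).symm⟩
      · obtain ⟨f, rfl⟩ := hm
        exact ⟨-f, (R.W_star f).symm⟩
    have h2 := hg _ hm'
    have h3 := congrArg star h2
    simpa using h3.symm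
  have h4 := congrArg star (hx _ h1)
  simpa using h4.symm

/-- the trace -/
noncomputable def tau : (K →L[ℂ] K) →ₗ[ℂ] ℂ where
  toFun x := ⟪R.Ω, x R.Ω⟫_ℂ
  map_add' x y := by simp
  map_smul' c x := by simp

theorem tau_apply (x : K →L[ℂ] K) : R.tau x = ⟪R.Ω, x R.Ω⟫_ℂ := rfl

theorem tau_one : R.tau 1 = 1 := by
  rw [tau_apply, one_apply_eq_self, inner_self_eq_norm_sq_to_K, R.norm_Ω]
  simp

theorem tau_comm {x y : K →L[ℂ] K} (hx : x ∈ R.M) (hy : y ∈ R.M) :
    R.tau (x * y) = R.tau (y * x) := R.trace x hx y hy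

theorem inner_eq_tau (x y : K →L[ℂ] K) : ⟪x R.Ω, y R.Ω⟫_ℂ = R.tau (star x * y) := by
  rw [tau_apply, mul_apply_eq_comp, ContinuousLinearMap.star_eq_adjoint,
    ContinuousLinearMap.adjoint_inner_right]

/-- centred elements of the two algebras -/
def Cen (i : Bool) (x : K →L[ℂ] K) : Prop := x ∈ R.part i ∧ R.tau x = 0

variable {R}

theorem Cen.sub {i : Bool} {x : K →L[ℂ] K} (hx : x ∈ R.part i) :
    R.Cen i (x - R.tau x • 1) := by
  refine ⟨Subalgebra.sub_mem _ hx (Subalgebra.smul_mem _ (Subalgebra.one_mem _) _), ?_⟩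
  rw [map_sub, map_smul, R.tau_one]
  simp

theorem free2 {i j : Bool} (hij : i ≠ j) {x y : K →L[ℂ] K} (hx : R.Cen i x) (hy : R.Cen j y) :
    R.tau (x * y) = 0 := by
  have h := R.free [(i, x), (j, y)] (by simp)
    (by
      intro p hp
      simp only [List.mem_cons, List.not_mem_nil, or_false] at hp
      rcases hp with rfl | rfl
      · exact hx
      · exact hy) (by simp [hij])
  rw [tau_apply, ← h]
  simp only [List.map_cons, List.map_nil, List.prod_cons, List.prod_nil, mul_one]

theorem free3 {i j k : Bool} (hij : i ≠ j) (hjk : j ≠ k) {x y z : K →L[ℂ] K}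
    (hx : R.Cen i x) (hy : R.Cen j y) (hz : R.Cen k z) :
    R.tau (x * y * z) = 0 := by
  have h := R.free [(i, x), (j, y), (k, z)] (by simp)
    (by
      intro p hp
      simp only [List.mem_cons, List.not_mem_nil, or_false] at hp
      rcases hp with rfl | rfl | rfl
      · exact hx
      · exact hy
      · exact hz) (by simp [hij, hjk])
  rw [tau_apply, ← h]
  simp only [List.map_cons, List.map_nil, List.prod_cons, List.prod_nil, mul_one, mul_assoc]

theorem free4 {i j : Bool} (hij : i ≠ j) {x y z w : K →L[ℂ] K}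
    (hx : R.Cen i x) (hy : R.Cen j y) (hz : R.Cen i z) (hw : R.Cen j w) :
    R.tau (x * y * z * w) = 0 := by
  have h := R.free [(i, x), (j, y), (i, z), (j, w)] (by simp)
    (by
      intro p hp
      simp only [List.mem_cons, List.not_mem_nil, or_false] at hp
      rcases hp with rfl | rfl | rfl | rfl
      · exact hx
      · exact hy
      · exact hz
      · exact hw) (by simp [hij, hij.symm])
  rw [tau_apply, ← h]
  simp only [List.map_cons, List.map_nil, List.prod_cons, List.prod_nil, mul_one, mul_assoc]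

theorem free5 {i j : Bool} (hij : i ≠ j) {x y z w v : K →L[ℂ] K}
    (hx : R.Cen i x) (hy : R.Cen j y) (hz : R.Cen i z) (hw : R.Cen j w) (hv : R.Cen i v) :
    R.tau (x * y * z * w * v) = 0 := by
  have h := R.free [(i, x), (j, y), (i, z), (j, w), (i, v)] (by simp)
    (by
      intro p hp
      simp only [List.mem_cons, List.not_mem_nil, or_false] at hp
      rcases hp with rfl | rfl | rfl | rfl | rfl
      · exact hx
      · exact hy
      · exact hz
      · exact hw
      · exact hv) (by simp [hij, hij.symm])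
  rw [tau_apply, ← h]
  simp only [List.map_cons, List.map_nil, List.prod_cons, List.prod_nil, mul_one, mul_assoc]

theorem free6 {i j : Bool} (hij : i ≠ j) {x y z w v u : K →L[ℂ] K}
    (hx : R.Cen i x) (hy : R.Cen j y) (hz : R.Cen i z) (hw : R.Cen j w) (hv : R.Cen i v)
    (hu : R.Cen j u) :
    R.tau (x * y * z * w * v * u) = 0 := by
  have h := R.free [(i, x), (j, y), (i, z), (j, w), (i, v), (j, u)] (by simp)
    (by
      intro p hp
      simp only [List.mem_cons, List.not_mem_nil, or_false] at hp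
      rcases hp with rfl | rfl | rfl | rfl | rfl | rfl
      · exact hx
      · exact hy
      · exact hz
      · exact hw
      · exact hv
      · exact hu) (by simp [hij, hij.symm])
  rw [tau_apply, ← h]
  simp only [List.map_cons, List.map_nil, List.prod_cons, List.prod_nil, mul_one, mul_assoc]

/-- `τ(a s) = τ(a) τ(s)` -/
theorem tau_mul {a s : K →L[ℂ] K} (ha : a ∈ R.part true) (hs : s ∈ R.part false) :
    R.tau (a * s) = R.tau a * R.tau s := by
  have h := free2 (by decide) (Cen.sub ha) (Cen.sub hs)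
  have h1 : (a - R.tau a • 1) * (s - R.tau s • 1) =
      a * s - R.tau s • a - R.tau a • s + (R.tau a * R.tau s) • (1 : K →L[ℂ] K) := by
    simp only [sub_mul, mul_sub, smul_mul_assoc, mul_smul_comm, one_mul, mul_one, smul_sub,
      smul_smul, mul_comm (R.tau s) (R.tau a)]
    abel
  rw [h1] at h
  simp only [map_add, map_sub, map_smul, R.tau_one, smul_eq_mul] at h
  linear_combination h

/-- `τ(a s b s') = τ(a) τ(b) τ(s s')` for centred `s`, `s'`. -/
theorem tau_four {a s b s' : K →L[ℂ] K} (ha : a ∈ R.part true) (hs : R.Cen false s)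
    (hb : b ∈ R.part true) (hs' : R.Cen false s') :
    R.tau (a * s * b * s') = R.tau a * R.tau b * R.tau (s * s') := by
  have hsb : R.tau (s * (b - R.tau b • 1) * s') = 0 :=
    free3 (by decide) (by decide) hs (Cen.sub hb) hs'
  have h4 : R.tau ((a - R.tau a • 1) * s * (b - R.tau b • 1) * s') = 0 :=
    free4 (by decide) (Cen.sub ha) hs (Cen.sub hb) hs'
  have h2 : R.tau (a * (s * s')) = R.tau a * R.tau (s * s') :=
    tau_mul ha (Subalgebra.mul_mem _ hs.1 hs'.1)
  have e1 : (a - R.tau a • 1) * s * (b - R.tau b • 1) * s' =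
      a * s * b * s' - R.tau b • (a * (s * s')) - R.tau a • (s * (b - R.tau b • 1) * s') := by
    simp only [sub_mul, mul_sub, smul_mul_assoc, mul_smul_comm, one_mul, mul_one, smul_sub,
      smul_smul, mul_assoc, mul_comm (R.tau b) (R.tau a)]
    abel
  rw [e1, map_sub, map_sub, map_smul, map_smul, hsb, h2] at h4
  simp only [smul_eq_mul] at h4
  linear_combination h4

/-- `τ(b s₁ a₁ s a₂ s₂) = τ(b) τ(s) τ(a₁ a₂) τ(s₁ s₂)` for centred `s₁`, `a₁`, `a₂`, `s₂`. -/
theorem tau_six {b s1 a1 s a2 s2 : K →L[ℂ] K} (hb : b ∈ R.part true) (hs1 : R.Cen false s1)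
    (ha1 : R.Cen true a1) (hs : s ∈ R.part false) (ha2 : R.Cen true a2)
    (hs2 : R.Cen false s2) :
    R.tau (b * s1 * a1 * s * a2 * s2) = R.tau b * R.tau s * R.tau (a1 * a2) * R.tau (s1 * s2) := by
  have h5 : R.tau (s1 * a1 * (s - R.tau s • 1) * a2 * s2) = 0 :=
    free5 (by decide) hs1 ha1 (Cen.sub hs) ha2 hs2
  have h6 : R.tau ((b - R.tau b • 1) * s1 * a1 * (s - R.tau s • 1) * a2 * s2) = 0 :=
    free6 (by decide) (Cen.sub hb) hs1 ha1 (Cen.sub hs) ha2 hs2
  have h4 : R.tau (b * s1 * (a1 * a2) * s2) = R.tau b * R.tau (a1 * a2) * R.tau (s1 * s2) :=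
    tau_four hb hs1 (Subalgebra.mul_mem _ ha1.1 ha2.1) hs2
  have e1 : (b - R.tau b • 1) * s1 * a1 * (s - R.tau s • 1) * a2 * s2 =
      b * s1 * a1 * s * a2 * s2 - R.tau s • (b * s1 * (a1 * a2) * s2)
        - R.tau b • (s1 * a1 * (s - R.tau s • 1) * a2 * s2) := by
    simp only [sub_mul, mul_sub, smul_mul_assoc, mul_smul_comm, one_mul, mul_one, smul_sub,
      smul_smul, mul_assoc, mul_comm (R.tau s) (R.tau b)]
    abel
  rw [e1, map_sub, map_sub, map_smul, map_smul, h5, h4] at h6
  simp only [smul_eq_mul] at h6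
  linear_combination h6

end Realisation

end Pool.Agent.Lib.MP_2fec48_an
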