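import Mathlib
import Pool.Agent.Lib.MP_2fec48_an.Alg

/-!
# The maps `a Ω ↦ a s η`
-/

open Filter Topology
open scoped InnerProductSpace

namespace Pool.Agent.Lib.MP_2fec48_an

namespace Realisation
variable {H : Type*} [NormedAddCommGroup H] [InnerProductSpace ℝ H]
  {K : Type*} [NormedAddCommGroup K] [InnerProductSpace ℂ K] [CompleteSpace K]
  (R : Realisation H K)

/-- the vectors `a Ω`, `a` in the von Neumann algebra of the classical family -/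
def AOm : Set K := (fun a : K →L[ℂ] K => a R.Ω) '' (R.part true : Set (K →L[ℂ] K))

/-- the closed span of `AOm` -/
def KA : Submodule ℂ K := (Submodule.span ℂ R.AOm).topologicalClosure

variable {R}

theorem mem_KA_iff {x : K} : x ∈ R.KA ↔ x ∈ closure (Submodule.span ℂ R.AOm : Set K) := Iff.rfl

theorem apply_mem_KA {a : K →L[ℂ] K} (ha : a ∈ R.part true) : a R.Ω ∈ R.KA :=
  Submodule.le_topologicalClosure _ (Submodule.subset_span ⟨a, ha, rfl⟩)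

theorem Om_mem_KA : R.Ω ∈ R.KA := by
  have := apply_mem_KA (R := R) (Subalgebra.one_mem _)
  simpa using this

theorem map_mem_KA {a : K →L[ℂ] K} (ha : a ∈ R.part true) {x : K} (hx : x ∈ R.KA) :
    a x ∈ R.KA := by
  have h1 : IsClosed (a ⁻¹' (R.KA : Set K)) :=
    (Submodule.isClosed_topologicalClosure _).preimage a.continuous
  have h2 : (Submodule.span ℂ R.AOm : Set K) ⊆ a ⁻¹' (R.KA : Set K) := by
    have h3 : Submodule.span ℂ R.AOm ≤ R.KA.comap (a : K →ₗ[ℂ] K) := by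
      rw [Submodule.span_le]
      rintro _ ⟨b, hb, rfl⟩
      exact apply_mem_KA (Subalgebra.mul_mem _ ha hb)
    exact h3
  exact closure_minimal h2 h1 hx

theorem tau_star (x : K →L[ℂ] K) : R.tau (star x) = (starRingEnd ℂ) (R.tau x) := by
  rw [tau_apply, tau_apply, ContinuousLinearMap.star_eq_adjoint,
    ContinuousLinearMap.adjoint_inner_right, inner_conj_symm]

theorem Cen.star {i : Bool} {x : K →L[ℂ] K} (hx : R.Cen i x) : R.Cen i (star x) :=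
  ⟨R.star_mem_part hx.1, by rw [tau_star, hx.2, map_zero]⟩

theorem inner_basic {a1 a2 s1 s2 : K →L[ℂ] K} (ha1 : a1 ∈ R.part true) (ha2 : a2 ∈ R.part true)
    (hs1 : R.Cen false s1) (hs2 : R.Cen false s2) {x y : K} (hx : x ∈ R.KA) (hy : y ∈ R.KA) :
    ⟪a1 (s1 x), a2 (s2 y)⟫_ℂ = (⟪a1 R.Ω, a2 R.Ω⟫_ℂ * ⟪s1 R.Ω, s2 R.Ω⟫_ℂ) * ⟪x, y⟫_ℂ := by
  refine sesq_closure (a1 * s1) (a2 * s2) 1 1 _ R.AOm R.AOm ?_ x hx y hy
  rintro _ ⟨b1, hb1, rfl⟩ _ ⟨b2, hb2, rfl⟩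
  change ⟪(a1 * s1 * b1) R.Ω, (a2 * s2 * b2) R.Ω⟫_ℂ = _ * ⟪b1 R.Ω, b2 R.Ω⟫_ℂ
  have m : ∀ {i} {x : K →L[ℂ] K}, x ∈ R.part i → x ∈ R.M := fun h => R.mem_M_of_part h
  rw [inner_eq_tau, inner_eq_tau, inner_eq_tau, inner_eq_tau]
  have e1 : star (a1 * s1 * b1) * (a2 * s2 * b2) =
      (star b1 * (star s1 * (star a1 * a2) * s2)) * b2 := by
    simp only [star_mul, mul_assoc]
  have hM1 : (star b1 * (star s1 * (star a1 * a2) * s2)) ∈ R.M :=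
    mul_mem (m (R.star_mem_part hb1)) (mul_mem (mul_mem (m (R.star_mem_part hs1.1))
      (mul_mem (m (R.star_mem_part ha1)) (m ha2))) (m hs2.1))
  rw [e1, tau_comm R hM1 (m hb2)]
  have e2 : b2 * (star b1 * (star s1 * (star a1 * a2) * s2)) =
      (b2 * star b1) * star s1 * (star a1 * a2) * s2 := by
    simp only [mul_assoc]
  rw [e2, tau_four (Subalgebra.mul_mem _ hb2 (R.star_mem_part hb1)) hs1.star
    (Subalgebra.mul_mem _ (R.star_mem_part ha1) ha2) hs2,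
    tau_comm R (m hb2) (m (R.star_mem_part hb1))]
  ring

theorem inner_six {a1 a2 s1 s2 s1' s2' : K →L[ℂ] K} (hs1 : s1 ∈ R.part false)
    (hs2 : s2 ∈ R.part false) (ha1 : R.Cen true a1) (ha2 : R.Cen true a2)
    (hs1' : R.Cen false s1') (hs2' : R.Cen false s2') {x y : K} (hx : x ∈ R.KA) (hy : y ∈ R.KA) :
    ⟪s1 (a1 (s1' x)), s2 (a2 (s2' y))⟫_ℂ =
      (⟪s1 R.Ω, s2 R.Ω⟫_ℂ * ⟪a1 R.Ω, a2 R.Ω⟫_ℂ * ⟪s1' R.Ω, s2' R.Ω⟫_ℂ) * ⟪x, y⟫_ℂ := by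
  refine sesq_closure (s1 * a1 * s1') (s2 * a2 * s2') 1 1 _ R.AOm R.AOm ?_ x hx y hy
  rintro _ ⟨b1, hb1, rfl⟩ _ ⟨b2, hb2, rfl⟩
  change ⟪(s1 * a1 * s1' * b1) R.Ω, (s2 * a2 * s2' * b2) R.Ω⟫_ℂ = _ * ⟪b1 R.Ω, b2 R.Ω⟫_ℂ
  have m : ∀ {i} {x : K →L[ℂ] K}, x ∈ R.part i → x ∈ R.M := fun h => R.mem_M_of_part h
  rw [inner_eq_tau, inner_eq_tau, inner_eq_tau, inner_eq_tau, inner_eq_tau]
  have e1 : star (s1 * a1 * s1' * b1) * (s2 * a2 * s2' * b2) =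
      (star b1 * (star s1' * star a1 * (star s1 * s2) * a2 * s2')) * b2 := by
    simp only [star_mul, mul_assoc]
  have hM1 : (star b1 * (star s1' * star a1 * (star s1 * s2) * a2 * s2')) ∈ R.M :=
    mul_mem (m (R.star_mem_part hb1)) (mul_mem (mul_mem (mul_mem (mul_mem
      (m (R.star_mem_part hs1'.1)) (m (R.star_mem_part ha1.1)))
      (mul_mem (m (R.star_mem_part hs1)) (m hs2))) (m ha2.1)) (m hs2'.1))
  rw [e1, tau_comm R hM1 (m hb2)]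
  have e2 : b2 * (star b1 * (star s1' * star a1 * (star s1 * s2) * a2 * s2')) =
      (b2 * star b1) * star s1' * star a1 * (star s1 * s2) * a2 * s2' := by
    simp only [mul_assoc]
  rw [e2, tau_six (Subalgebra.mul_mem _ hb2 (R.star_mem_part hb1)) hs1'.star ha1.star
    (Subalgebra.mul_mem _ (R.star_mem_part hs1) hs2) ha2 hs2',
    tau_comm R (m hb2) (m (R.star_mem_part hb1))]
  ring

theorem inner_s {s1 s2 : K →L[ℂ] K} (hs1 : R.Cen false s1) (hs2 : R.Cen false s2) {x y : K}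
    (hx : x ∈ R.KA) (hy : y ∈ R.KA) :
    ⟪s1 x, s2 y⟫_ℂ = ⟪s1 R.Ω, s2 R.Ω⟫_ℂ * ⟪x, y⟫_ℂ := by
  have h := inner_basic (R := R) (Subalgebra.one_mem _) (Subalgebra.one_mem _) hs1 hs2 hx hy
  simp only [one_apply_eq_self] at h
  rw [h, inner_self_eq_norm_sq_to_K, R.norm_Ω]
  simp

theorem norm_basic {a s : K →L[ℂ] K} (ha : a ∈ R.part true) (hs : R.Cen false s) {x : K}
    (hx : x ∈ R.KA) : ‖a (s x)‖ = ‖s R.Ω‖ * ‖x‖ * ‖a R.Ω‖ := by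
  have h := inner_basic ha ha hs hs hx hx
  simp only [inner_self_eq_norm_sq_to_K] at h
  have h1 : ((‖a (s x)‖ ^ 2 : ℝ) : ℂ) = (((‖s R.Ω‖ * ‖x‖ * ‖a R.Ω‖) ^ 2 : ℝ) : ℂ) := by
    push_cast
    calc (‖a (s x)‖ : ℂ) ^ 2 = _ := h
      _ = ((‖a R.Ω‖ : ℂ) ^ 2 * (‖s R.Ω‖ : ℂ) ^ 2) * (‖x‖ : ℂ) ^ 2 := rfl
      _ = _ := by ring
  exact (sq_eq_sq₀ (norm_nonneg _) (by positivity)).1 (Complex.ofReal_injective h1)

variable (R) in
open scoped Classical in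
/-- the bounded map with `a Ω ↦ a s η` for `a` in the von Neumann algebra of the classical
family -/
noncomputable def Tm (s : K →L[ℂ] K) (η : K) : K →L[ℂ] K :=
  if h : ∃ T : K →L[ℂ] K, ∀ a ∈ R.part true, T (a R.Ω) = a (s η) then h.choose else 0

theorem Tm_spec {s : K →L[ℂ] K} (hs : R.Cen false s) {η : K} (hη : η ∈ R.KA)
    {a : K →L[ℂ] K} (ha : a ∈ R.part true) : R.Tm s η (a R.Ω) = a (s η) := by
  have h : ∃ T : K →L[ℂ] K, ∀ a ∈ R.part true, T (a R.Ω) = a (s η) := by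
    let j : (R.part true) →ₗ[ℂ] K :=
      { toFun := fun a => (a : K →L[ℂ] K) R.Ω
        map_add' := fun a b => rfl
        map_smul' := fun c a => rfl }
    let f : (R.part true) →ₗ[ℂ] K :=
      { toFun := fun a => (a : K →L[ℂ] K) (s η)
        map_add' := fun a b => rfl
        map_smul' := fun c a => rfl }
    obtain ⟨T, hT⟩ := exists_ext j f (‖s R.Ω‖ * ‖η‖) (fun a => (norm_basic a.2 hs hη).le)
    exact ⟨T, fun a ha => hT ⟨a, ha⟩⟩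
  rw [Tm, dif_pos h]
  exact h.choose_spec a ha

theorem Tm_Om {s : K →L[ℂ] K} (hs : R.Cen false s) {η : K} (hη : η ∈ R.KA) :
    R.Tm s η R.Ω = s η := by
  have h := Tm_spec hs hη (Subalgebra.one_mem (R.part true))
  simpa using h

theorem Tm_inner {s1 s2 : K →L[ℂ] K} (hs1 : R.Cen false s1) (hs2 : R.Cen false s2) {η1 η2 : K}
    (hη1 : η1 ∈ R.KA) (hη2 : η2 ∈ R.KA) {x y : K} (hx : x ∈ R.KA) (hy : y ∈ R.KA) :
    ⟪R.Tm s1 η1 x, R.Tm s2 η2 y⟫_ℂ = (⟪s1 R.Ω, s2 R.Ω⟫_ℂ * ⟪η1, η2⟫_ℂ) * ⟪x, y⟫_ℂ := by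
  refine sesq_closure (R.Tm s1 η1) (R.Tm s2 η2) 1 1 _ R.AOm R.AOm ?_ x hx y hy
  rintro _ ⟨b1, hb1, rfl⟩ _ ⟨b2, hb2, rfl⟩
  simp only
  rw [Tm_spec hs1 hη1 hb1, Tm_spec hs2 hη2 hb2, inner_basic hb1 hb2 hs1 hs2 hη1 hη2]
  simp only [one_apply_eq_self]
  ring

theorem Tm_W {s : K →L[ℂ] K} (hs : R.Cen false s) {η : K} (hη : η ∈ R.KA) (f : H) {x : K}
    (hx : x ∈ R.KA) : R.W f (R.Tm s η x) = R.Tm s η (R.W f x) := by
  have h1 : Set.EqOn (R.W f ∘L R.Tm s η) (R.Tm s η ∘L R.W f) R.AOm := by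
    rintro _ ⟨a, ha, rfl⟩
    change R.W f (R.Tm s η (a R.Ω)) = R.Tm s η (R.W f (a R.Ω))
    rw [Tm_spec hs hη ha]
    have h2 := Tm_spec hs hη (Subalgebra.mul_mem _ (R.W_mem_part f) ha)
    rw [mul_apply_eq_comp, mul_apply_eq_comp] at h2
    exact h2.symm
  exact ContinuousLinearMap.eqOn_closure_span h1 hx

theorem Tm_G1 {s : K →L[ℂ] K} (hs : R.Cen false s) {η : K} (hη : η ∈ R.KA) {f : H} {x y : K}
    (hx : x ∈ R.KA) (h : R.G1 f x y) : R.G1 f (R.Tm s η x) (R.Tm s η y) := by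
  have h1 := ((R.Tm s η).continuous.tendsto y).comp h
  refine h1.congr fun t => ?_
  simp only [Function.comp, map_smul, map_sub]
  rw [Tm_W hs hη _ hx]

theorem six_inner {s1 s2 s1' s2' : K →L[ℂ] K} (hs1 : s1 ∈ R.part false)
    (hs2 : s2 ∈ R.part false) (hs1' : R.Cen false s1') (hs2' : R.Cen false s2') {η1 η2 : K}
    (hη1 : η1 ∈ R.KA) (hη2 : η2 ∈ R.KA) {x y : K} (hx : x ∈ R.KA) (hy : y ∈ R.KA)
    (hx0 : ⟪R.Ω, x⟫_ℂ = 0) (hy0 : ⟪R.Ω, y⟫_ℂ = 0) :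
    ⟪s1 (R.Tm s1' η1 x), s2 (R.Tm s2' η2 y)⟫_ℂ =
      (⟪s1 R.Ω, s2 R.Ω⟫_ℂ * ⟪s1' R.Ω, s2' R.Ω⟫_ℂ * ⟪η1, η2⟫_ℂ) * ⟪x, y⟫_ℂ := by
  let P : K →L[ℂ] K := 1 - (innerSL ℂ R.Ω).smulRight R.Ω
  have hP : ∀ z, P z = z - ⟪R.Ω, z⟫_ℂ • R.Ω := fun z => rfl
  have hPx : P x = x := by rw [hP, hx0]; simp
  have hPy : P y = y := by rw [hP, hy0]; simp
  have h := sesq_closure (s1 ∘L R.Tm s1' η1 ∘L P) (s2 ∘L R.Tm s2' η2 ∘L P) P P
    (⟪s1 R.Ω, s2 R.Ω⟫_ℂ * ⟪s1' R.Ω, s2' R.Ω⟫_ℂ * ⟪η1, η2⟫_ℂ) R.AOm R.AOm ?_ x hx y hy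
  · simp only [ContinuousLinearMap.comp_apply, hPx, hPy] at h
    exact h
  · rintro _ ⟨b1, hb1, rfl⟩ _ ⟨b2, hb2, rfl⟩
    have hPb : ∀ b : K →L[ℂ] K, P (b R.Ω) = (b - R.tau b • 1) R.Ω := fun b => by
      rw [hP]; simp [tau_apply]
    simp only [ContinuousLinearMap.comp_apply, hPb]
    rw [Tm_spec hs1' hη1 (Cen.sub hb1).1, Tm_spec hs2' hη2 (Cen.sub hb2).1,
      inner_six hs1 hs2 (Cen.sub hb1) (Cen.sub hb2) hs1' hs2' hη1 hη2]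
    ring

end Realisation

end Pool.Agent.Lib.MP_2fec48_an
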