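import Mathlib
import Pool.Agent.Lib.MP_2fec48_an.TMap

/-!
# Gaussian vectors in a realisation
-/

open Filter Topology
open scoped InnerProductSpace

namespace Pool.Agent.Lib.MP_2fec48_an

namespace Realisation
variable {H : Type*} [NormedAddCommGroup H] [InnerProductSpace ℝ H]
  {K : Type*} [NormedAddCommGroup K] [InnerProductSpace ℂ K] [CompleteSpace K]
  {R : Realisation H K}

theorem W_W (f g : H) (x : K) : R.W f (R.W g x) = R.W (f + g) x := by
  rw [R.W_add, mul_apply_eq_comp]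

theorem W_inner (f : H) (x y : K) : ⟪R.W f x, y⟫_ℂ = ⟪x, R.W (-f) y⟫_ℂ := by
  rw [← R.W_star, ContinuousLinearMap.star_eq_adjoint, ContinuousLinearMap.adjoint_inner_right]

theorem G1_unique {f : H} {x y y' : K} (h : R.G1 f x y) (h' : R.G1 f x y') : y = y' :=
  tendsto_nhds_unique h h'

theorem G1_add {f : H} {x y x' y' : K} (h : R.G1 f x y) (h' : R.G1 f x' y') :
    R.G1 f (x + x') (y + y') := by
  refine (Tendsto.add h h').congr fun t => ?_
  rw [← smul_add, map_add]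
  congr 1
  abel

theorem G1_smul {f : H} {x y : K} (c : ℂ) (h : R.G1 f x y) : R.G1 f (c • x) (c • y) := by
  refine (Tendsto.const_smul h c).congr fun t => ?_
  rw [map_smul, ← smul_sub, smul_comm]

theorem G1_sub {f : H} {x y x' y' : K} (h : R.G1 f x y) (h' : R.G1 f x' y') :
    R.G1 f (x - x') (y - y') := by
  have := G1_add h (G1_smul (-1) h')
  simpa [sub_eq_add_neg] using this

theorem G1_W {f : H} (g : H) {x y : K} (h : R.G1 f x y) : R.G1 f (R.W g x) (R.W g y) := by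
  refine (((R.W g).continuous.tendsto y).comp h).congr fun t => ?_
  simp only [Function.comp, map_smul, map_sub, W_W, add_comm]

/-- operators commuting with all `W f` preserve the graph of `G₁ f` -/
theorem G1_comm {f : H} {u : K →L[ℂ] K} (hu : ∀ g, u * R.W g = R.W g * u) {x y : K}
    (h : R.G1 f x y) : R.G1 f (u x) (u y) := by
  refine ((u.continuous.tendsto y).comp h).congr fun t => ?_
  simp only [Function.comp, map_smul, map_sub]
  have h1 := congrArg (fun T : K →L[ℂ] K => T x) (hu (t • f))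
  simp only [mul_apply_eq_comp] at h1
  rw [h1]

theorem G1_symm {f : H} {x y x' y' : K} (h : R.G1 f x y) (h' : R.G1 f x' y') :
    ⟪y, x'⟫_ℂ = ⟪x, y'⟫_ℂ := by
  have h1 : Tendsto (fun t : ℝ => ⟪(Complex.I * (t : ℂ))⁻¹ • (R.W (t • f) x - x), x'⟫_ℂ)
      (𝓝[≠] 0) (𝓝 ⟪y, x'⟫_ℂ) := Tendsto.inner h tendsto_const_nhds
  have hneg : Tendsto (fun t : ℝ => -t) (𝓝[≠] 0) (𝓝[≠] 0) := by
    refine tendsto_nhdsWithin_iff.2 ⟨?_, ?_⟩
    · have : Tendsto (fun t : ℝ => -t) (𝓝 0) (𝓝 (-0)) := continuous_neg.tendsto 0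
      rw [neg_zero] at this
      exact this.mono_left nhdsWithin_le_nhds
    · filter_upwards [self_mem_nhdsWithin] with t ht
      simpa using ht
  have h2 : Tendsto (fun t : ℝ => ⟪x, (Complex.I * ((-t : ℝ) : ℂ))⁻¹ •
      (R.W ((-t) • f) x' - x')⟫_ℂ) (𝓝[≠] 0) (𝓝 ⟪x, y'⟫_ℂ) :=
    Tendsto.inner tendsto_const_nhds (Tendsto.comp h' hneg)
  refine tendsto_nhds_unique h1 (h2.congr fun t => ?_)
  rw [inner_smul_left, inner_smul_right, inner_sub_left, inner_sub_right, W_inner, neg_smul]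
  congr 1
  rw [map_inv₀, map_mul, Complex.conj_I, Complex.conj_ofReal]
  push_cast
  ring_nf

theorem char_inner (f g : H) :
    ⟪R.W f R.Ω, R.W g R.Ω⟫_ℂ = Complex.exp (-(‖g - f‖ : ℂ) ^ 2 / 2) := by
  rw [W_inner, W_W, ← R.W_char, neg_add_eq_sub]

variable (R) in
/-- the closed span of the vectors `W (t E) Ω` -/
def KA0 (E : H) : Submodule ℂ K :=
  (Submodule.span ℂ (Set.range fun t : ℝ => R.W (t • E) R.Ω)).topologicalClosure

theorem indep {E f g : H} (hf : ⟪f, E⟫_ℝ = 0) (hg : ⟪g, E⟫_ℝ = 0) {x y : K}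
    (hx : x ∈ R.KA0 E) (hy : y ∈ R.KA0 E) :
    ⟪R.W f x, R.W g y⟫_ℂ = Complex.exp (-(‖g - f‖ : ℂ) ^ 2 / 2) * ⟪x, y⟫_ℂ := by
  refine sesq_closure (R.W f) (R.W g) 1 1 _ (Set.range fun t : ℝ => R.W (t • E) R.Ω)
    (Set.range fun t : ℝ => R.W (t • E) R.Ω) ?_ x hx y hy
  rintro _ ⟨s, rfl⟩ _ ⟨t, rfl⟩
  simp only [one_apply_eq_self]
  rw [W_W, W_W, char_inner, char_inner, ← Complex.exp_add]
  congr 1
  have h1 : ‖g + t • E - (f + s • E)‖ ^ 2 = ‖g - f‖ ^ 2 + ‖t • E - s • E‖ ^ 2 := by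
    have e1 : g + t • E - (f + s • E) = (g - f) + (t • E - s • E) := by abel
    rw [e1, norm_add_sq_real]
    have e2 : ⟪g - f, t • E - s • E⟫_ℝ = 0 := by
      rw [inner_sub_left, inner_sub_right, inner_sub_right, inner_smul_right, inner_smul_right,
        inner_smul_right, inner_smul_right, hf, hg]
      ring
    rw [e2]; ring
  have h2 : (‖g + t • E - (f + s • E)‖ : ℂ) ^ 2 = (‖g - f‖ : ℂ) ^ 2 + (‖t • E - s • E‖ : ℂ) ^ 2 := by
    exact_mod_cast h1
  rw [h2]; ring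

theorem KA0_le_KA (E : H) : R.KA0 E ≤ R.KA := by
  refine Submodule.topologicalClosure_minimal _ ?_ (Submodule.isClosed_topologicalClosure _)
  rw [Submodule.span_le]
  rintro _ ⟨t, rfl⟩
  exact apply_mem_KA (R.W_mem_part _)

theorem W_mem_KA0 (E : H) (t : ℝ) {x : K} (hx : x ∈ R.KA0 E) : R.W (t • E) x ∈ R.KA0 E := by
  have h1 : IsClosed ((R.W (t • E)) ⁻¹' (R.KA0 E : Set K)) :=
    (Submodule.isClosed_topologicalClosure _).preimage (R.W (t • E)).continuous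
  have h2 : (Submodule.span ℂ (Set.range fun t : ℝ => R.W (t • E) R.Ω) : Set K) ⊆
      (R.W (t • E)) ⁻¹' (R.KA0 E : Set K) := by
    have h3 : Submodule.span ℂ (Set.range fun t : ℝ => R.W (t • E) R.Ω) ≤
        (R.KA0 E).comap ((R.W (t • E)) : K →ₗ[ℂ] K) := by
      rw [Submodule.span_le]
      rintro _ ⟨s, rfl⟩
      change R.W (t • E) (R.W (s • E) R.Ω) ∈ R.KA0 E
      rw [W_W, ← add_smul]
      exact Submodule.le_topologicalClosure _ (Submodule.subset_span ⟨t + s, rfl⟩)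
    exact h3
  exact closure_minimal h2 h1 hx

theorem norm_smul_unit {e : H} (he : ‖e‖ = 1) (t : ℝ) : ((‖t • e‖ : ℝ) : ℂ) ^ 2 = (t : ℂ) ^ 2 := by
  rw [norm_smul, he, mul_one, Real.norm_eq_abs]
  exact_mod_cast sq_abs t

/-- powers of the Gaussian operator `G₁ e` applied to a vector `η` of the closed span of the
`W (t E) Ω`, where `e` is a unit vector orthogonal to `E` -/
theorem exists_pow {E e : H} (he : ‖e‖ = 1) (heE : ⟪e, E⟫_ℝ = 0) {η : K}
    (hη : η ∈ R.KA0 E) :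
    ∃ v : ℕ → K, v 0 = η ∧ (∀ k, R.G1 e (v k) (v (k + 1))) ∧
      (∀ k, v k ∈ closure (Submodule.span ℂ (Set.range fun t : ℝ => R.W (t • e) η) : Set K)) ∧
      (∀ k l, ⟪v k, v l⟫_ℂ = (‖η‖ : ℂ) ^ 2 * (gmom (k + l) : ℂ)) := by
  obtain ⟨v, h1, h2, h3, h4, -⟩ := gauss_model (fun t : ℝ => R.W (t • e)) (by simp [R.W_zero])
    (fun s t => by simp only [add_smul, R.W_add]) (fun t => by simp only [R.W_star, neg_smul]) η
    (fun t => by
      have h := indep (R := R) (f := 0) (g := t • e) (inner_zero_left _)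
        (by rw [inner_smul_left, heE, mul_zero]) hη hη
      rw [R.W_zero, one_apply_eq_self, sub_zero, norm_smul_unit he, inner_self_eq_norm_sq_to_K] at h
      rw [h, mul_comm]
      rfl)
  exact ⟨v, h1, h2, h3, h4⟩

/-- powers of `G₁ E` applied to `Ω` -/
theorem exists_pow0 {E : H} (hE : ‖E‖ = 1) :
    ∃ v : ℕ → K, v 0 = R.Ω ∧ (∀ k, R.G1 E (v k) (v (k + 1))) ∧
      (∀ k, v k ∈ R.KA0 E) ∧
      (∀ k l, ⟪v k, v l⟫_ℂ = (gmom (k + l) : ℂ)) ∧
      (∀ z, (∀ k, ⟪z, v k⟫_ℂ = 0) → ∀ t : ℝ, ⟪z, R.W (t • E) R.Ω⟫_ℂ = 0) := by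
  obtain ⟨v, h1, h2, h3, h4, h5⟩ := gauss_model (fun t : ℝ => R.W (t • E)) (by simp [R.W_zero])
    (fun s t => by simp only [add_smul, R.W_add]) (fun t => by simp only [R.W_star, neg_smul]) R.Ω
    (fun t => by
      rw [R.W_char, norm_smul_unit hE, R.norm_Ω]
      simp)
  refine ⟨v, h1, h2, h3, fun k l => ?_, h5⟩
  rw [h4, R.norm_Ω]
  simp

/-- independence of orthogonal directions -/
theorem cross_orth {E e e' : H} (he : ‖e‖ = 1) (he' : ‖e'‖ = 1)
    (heE : ⟪e, E⟫_ℝ = 0) (heE' : ⟪e', E⟫_ℝ = 0) (hee : ⟪e, e'⟫_ℝ = 0) {η : K}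
    (hη : η ∈ R.KA0 E) {x y : K}
    (hx : x ∈ closure (Submodule.span ℂ (Set.range fun t : ℝ => R.W (t • e) η) : Set K))
    (hy : y ∈ closure (Submodule.span ℂ (Set.range fun t : ℝ => R.W (t • e') η) : Set K))
    (hx0 : ⟪η, x⟫_ℂ = 0) (hη0 : η ≠ 0) : ⟪x, y⟫_ℂ = 0 := by
  let P : K →L[ℂ] K := (innerSL ℂ η).smulRight η
  have hP : ∀ z, P z = ⟪η, z⟫_ℂ • η := fun z => rfl
  have key := sesq_closure P P 1 1 ((‖η‖ : ℂ) ^ 4) (Set.range fun t : ℝ => R.W (t • e) η)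
    (Set.range fun t : ℝ => R.W (t • e') η) ?_ x hx y hy
  · rw [hP, hx0, zero_smul, inner_zero_left, one_apply_eq_self, one_apply_eq_self] at key
    have h1 : ((‖η‖ : ℂ) ^ 4) ≠ 0 := by
      have : (‖η‖ : ℂ) ≠ 0 := by
        exact_mod_cast (norm_pos_iff.2 hη0).ne'
      exact pow_ne_zero _ this
    exact (mul_eq_zero.1 key.symm).resolve_left h1
  · rintro _ ⟨s, rfl⟩ _ ⟨t, rfl⟩
    simp only [hP, one_apply_eq_self]
    have h1 : ∀ (e : H) (_ : ‖e‖ = 1) (_ : ⟪e, E⟫_ℝ = 0) (t : ℝ),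
        ⟪η, R.W (t • e) η⟫_ℂ = Complex.exp (-(t : ℂ) ^ 2 / 2) * (‖η‖ : ℂ) ^ 2 := by
      intro e he heE t
      have h := indep (R := R) (f := 0) (g := t • e) (inner_zero_left _)
        (by rw [inner_smul_left, heE, mul_zero]) hη hη
      rw [R.W_zero, one_apply_eq_self, sub_zero, norm_smul_unit he, inner_self_eq_norm_sq_to_K] at h
      exact h
    have h2 := indep (R := R) (f := s • e) (g := t • e')
        (by rw [inner_smul_left, heE, mul_zero]) (by rw [inner_smul_left, heE', mul_zero]) hη hη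
    have h3 : ((‖t • e' - s • e‖ : ℝ) : ℂ) ^ 2 = (s : ℂ) ^ 2 + (t : ℂ) ^ 2 := by
      have : ‖t • e' - s • e‖ ^ 2 = s ^ 2 + t ^ 2 := by
        rw [norm_sub_sq_real, norm_smul, norm_smul, he, he', inner_smul_left, inner_smul_right,
          real_inner_comm, hee, Real.norm_eq_abs, Real.norm_eq_abs, mul_one, mul_one, sq_abs,
          sq_abs]
        simp
        ring
      exact_mod_cast this
    rw [h2, h3, inner_smul_left, inner_smul_right, h1 e he heE, h1 e' he' heE',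
      inner_self_eq_norm_sq_to_K, map_mul, ← Complex.exp_conj]
    have h4 : (starRingEnd ℂ) (-(s : ℂ) ^ 2 / 2) = -(s : ℂ) ^ 2 / 2 := by
      have : (-(s : ℂ) ^ 2 / 2) = ((-(s ^ 2) / 2 : ℝ) : ℂ) := by push_cast; ring
      rw [this, Complex.conj_ofReal]
    have h5 : (starRingEnd ℂ) ((‖η‖ : ℂ) ^ 2) = (‖η‖ : ℂ) ^ 2 := by
      simp [Complex.conj_ofReal]
    have h6 : Complex.exp (-((s : ℂ) ^ 2 + (t : ℂ) ^ 2) / 2) =
        Complex.exp (-(s : ℂ) ^ 2 / 2) * Complex.exp (-(t : ℂ) ^ 2 / 2) := by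
      rw [← Complex.exp_add]; congr 1; ring
    rw [h4, h5, h6]
    change _ * (_ * (‖η‖ : ℂ) ^ 2) = _ * (_ * (‖η‖ : ℂ) ^ 2)
    ring

end Realisation

end Pool.Agent.Lib.MP_2fec48_an
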