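import Mathlib
import Pool.Agent.Lib.MP_2fec48_an.Vec

/-!
# The averaging step
-/

open Filter Topology
open scoped InnerProductSpace

namespace Pool.Agent.Lib.MP_2fec48_an

section Moments
variable {H : Type*} [NormedAddCommGroup H] [InnerProductSpace ℝ H]

theorem scMoment_nil : scMoment ([] : List H) = 1 := by
  rw [scMoment]

theorem scMoment_cons (f : H) (l : List H) : scMoment (f :: l) = ∑ k : Fin l.length,
      ⟪f, l.get k⟫_ℝ * scMoment (l.take k) * scMoment (l.drop (k + 1)) := by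
  rw [scMoment]

theorem scMoment_one (a : H) : scMoment [a] = 0 := by
  rw [scMoment_cons]; simp

theorem scMoment_two (a b : H) : scMoment [a, b] = ⟪a, b⟫_ℝ := by
  rw [scMoment_cons]
  simp [scMoment_nil]

theorem scMoment_three (a b c : H) : scMoment [a, b, c] = 0 := by
  rw [scMoment_cons]
  simp [Fin.sum_univ_succ, scMoment_nil, scMoment_one]

theorem scMoment_four (a b c d : H) :
    scMoment [a, b, c, d] = ⟪a, b⟫_ℝ * ⟪c, d⟫_ℝ + ⟪a, d⟫_ℝ * ⟪b, c⟫_ℝ := by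
  rw [scMoment_cons]
  simp [Fin.sum_univ_succ, scMoment_nil, scMoment_one, scMoment_two]

theorem scMoment_six (a b c d e f : H) :
    scMoment [a, b, c, d, e, f] = ⟪a, b⟫_ℝ * scMoment [c, d, e, f] +
      ⟪a, d⟫_ℝ * ⟪b, c⟫_ℝ * ⟪e, f⟫_ℝ + ⟪a, f⟫_ℝ * scMoment [b, c, d, e] := by
  rw [scMoment_cons]
  simp [Fin.sum_univ_succ, scMoment_nil, scMoment_one, scMoment_two, scMoment_three]
  ring

end Moments

namespace Realisation
variable {H : Type*} [NormedAddCommGroup H] [InnerProductSpace ℝ H]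
  {K : Type*} [NormedAddCommGroup K] [InnerProductSpace ℂ K] [CompleteSpace K]
  {R : Realisation H K}

theorem tau_list (l : List H) : R.tau (l.map R.G0).prod = (scMoment l : ℂ) := R.G0_moment l

theorem cenG (f : H) : R.Cen false (R.G0 f) := by
  refine ⟨R.G0_mem_part f, ?_⟩
  have h := tau_list (R := R) [f]
  simpa [scMoment_one] using h

theorem cenG2 {f g : H} (h : ⟪f, g⟫_ℝ = 0) : R.Cen false (R.G0 f * R.G0 g) := by
  refine ⟨Subalgebra.mul_mem _ (R.G0_mem_part f) (R.G0_mem_part g), ?_⟩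
  have h1 := tau_list (R := R) [f, g]
  rw [scMoment_two, h] at h1
  simpa using h1

theorem cenG3 (f g h : H) : R.Cen false (R.G0 f * R.G0 g * R.G0 h) := by
  refine ⟨Subalgebra.mul_mem _ (Subalgebra.mul_mem _ (R.G0_mem_part f) (R.G0_mem_part g))
    (R.G0_mem_part h), ?_⟩
  have h1 := tau_list (R := R) [f, g, h]
  rw [scMoment_three] at h1
  simpa [mul_assoc] using h1

theorem inner_G1' (f g : H) : ⟪R.G0 f R.Ω, R.G0 g R.Ω⟫_ℂ = (⟪f, g⟫_ℝ : ℂ) := by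
  have h1 := tau_list (R := R) [f, g]
  rw [scMoment_two] at h1
  rw [inner_eq_tau, R.G0_star, ← h1]
  simp

theorem inner_G2' (a b c d : H) :
    ⟪(R.G0 a * R.G0 b) R.Ω, (R.G0 c * R.G0 d) R.Ω⟫_ℂ = (scMoment [b, a, c, d] : ℂ) := by
  have h1 := tau_list (R := R) [b, a, c, d]
  rw [inner_eq_tau, star_mul, R.G0_star, R.G0_star, ← h1]
  simp [mul_assoc]

theorem inner_G3' (a b c d e f : H) :
    ⟪(R.G0 a * R.G0 b * R.G0 c) R.Ω, (R.G0 d * R.G0 e * R.G0 f) R.Ω⟫_ℂ =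
      (scMoment [c, b, a, d, e, f] : ℂ) := by
  have h1 := tau_list (R := R) [c, b, a, d, e, f]
  rw [inner_eq_tau, star_mul, star_mul, R.G0_star, R.G0_star, R.G0_star, ← h1]
  simp [mul_assoc]

/-- weak nullity of `s i (x i)` -/
theorem wn_s {s : ℕ → K →L[ℂ] K} (hs : ∀ i, R.Cen false (s i))
    (ho : ∀ i k, i ≠ k → ⟪s i R.Ω, s k R.Ω⟫_ℂ = 0) (hn : ∀ i, ‖s i R.Ω‖ ≤ 1) {x : ℕ → K}
    (hx : ∀ i, x i ∈ R.KA) {C : ℝ} (hC : ∀ i, ‖x i‖ ≤ C) : WN (fun i => s i (x i)) := by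
  refine wn_of_orth (C := C) (fun i => ?_) (fun i k hik => ?_)
  · have h := norm_basic (R := R) (Subalgebra.one_mem _) (hs i) (hx i)
    rw [one_apply_eq_self, one_apply_eq_self, R.norm_Ω, mul_one] at h
    rw [h]
    calc ‖s i R.Ω‖ * ‖x i‖ ≤ 1 * C := by
          gcongr
          · exact hn i
          · exact hC i
      _ = C := one_mul C
  · rw [inner_s (hs i) (hs k) (hx i) (hx k), ho i k hik, zero_mul]

theorem norm_Tm {s : K →L[ℂ] K} (hs : R.Cen false s) {η : K} (hη : η ∈ R.KA) {x : K}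
    (hx : x ∈ R.KA) : ‖R.Tm s η x‖ = ‖s R.Ω‖ * ‖η‖ * ‖x‖ := by
  have h := Tm_inner hs hs hη hη hx hx
  simp only [inner_self_eq_norm_sq_to_K] at h
  have h1 : ((‖R.Tm s η x‖ ^ 2 : ℝ) : ℂ) = (((‖s R.Ω‖ * ‖η‖ * ‖x‖) ^ 2 : ℝ) : ℂ) := by
    push_cast
    calc (‖R.Tm s η x‖ : ℂ) ^ 2 = _ := h
      _ = ((‖s R.Ω‖ : ℂ) ^ 2 * (‖η‖ : ℂ) ^ 2) * (‖x‖ : ℂ) ^ 2 := rfl
      _ = _ := by ring
  exact (sq_eq_sq₀ (norm_nonneg _) (by positivity)).1 (Complex.ofReal_injective h1)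

/-- weak nullity of `x i ⊗ s i ⊗ η i` -/
theorem wn_T {s : ℕ → K →L[ℂ] K} (hs : ∀ i, R.Cen false (s i)) (hn : ∀ i, ‖s i R.Ω‖ ≤ 1)
    {η x : ℕ → K} (hη : ∀ i, η i ∈ R.KA) (hx : ∀ i, x i ∈ R.KA) {C C' : ℝ}
    (hC : ∀ i, ‖η i‖ ≤ C) (hC' : ∀ i, ‖x i‖ ≤ C')
    (ho : ∀ i k, i ≠ k → ⟪s i R.Ω, s k R.Ω⟫_ℂ = 0 ∨ ⟪x i, x k⟫_ℂ = 0) :
    WN (fun i => R.Tm (s i) (η i) (x i)) := by
  have hC0 : 0 ≤ C := (norm_nonneg _).trans (hC 0)
  refine wn_of_orth (C := 1 * C * C') (fun i => ?_) (fun i k hik => ?_)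
  · rw [norm_Tm (hs i) (hη i) (hx i)]
    gcongr
    · exact hn i
    · exact hC i
    · exact hC' i
  · rw [Tm_inner (hs i) (hs k) (hη i) (hη k) (hx i) (hx k)]
    rcases ho i k hik with h | h <;> rw [h] <;> ring

/-- weak nullity of `s i (x ⊗ s i ⊗ η)` -/
theorem wn_six {s : ℕ → K →L[ℂ] K} (hs : ∀ i, R.Cen false (s i))
    (ho : ∀ i k, i ≠ k → ⟪s i R.Ω, s k R.Ω⟫_ℂ = 0) (hn : ∀ i, ‖s i R.Ω‖ ≤ 1)
    {η x : K} (hη : η ∈ R.KA) (hx : x ∈ R.KA) (hx0 : ⟪R.Ω, x⟫_ℂ = 0) :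
    WN (fun i => s i (R.Tm (s i) η x)) := by
  refine wn_of_orth (C := ‖η‖ * ‖x‖) (fun i => ?_) (fun i k hik => ?_)
  · have h := six_inner (hs i).1 (hs i).1 (hs i) (hs i) hη hη hx hx hx0 hx0
    simp only [inner_self_eq_norm_sq_to_K] at h
    have h1 : ((‖s i (R.Tm (s i) η x)‖ ^ 2 : ℝ) : ℂ) =
        (((‖s i R.Ω‖ ^ 2 * (‖η‖ * ‖x‖)) ^ 2 : ℝ) : ℂ) := by
      push_cast
      calc (‖s i (R.Tm (s i) η x)‖ : ℂ) ^ 2 = _ := h
        _ = ((‖s i R.Ω‖ : ℂ) ^ 2 * (‖s i R.Ω‖ : ℂ) ^ 2 * (‖η‖ : ℂ) ^ 2) * (‖x‖ : ℂ) ^ 2 := rfl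
        _ = _ := by ring
    have h2 := (sq_eq_sq₀ (norm_nonneg _) (by positivity)).1 (Complex.ofReal_injective h1)
    rw [h2]
    have h3 : ‖s i R.Ω‖ ^ 2 ≤ 1 := pow_le_one₀ (norm_nonneg _) (hn i)
    calc ‖s i R.Ω‖ ^ 2 * (‖η‖ * ‖x‖) ≤ 1 * (‖η‖ * ‖x‖) := by gcongr
      _ = _ := one_mul _
  · rw [six_inner (hs i).1 (hs k).1 (hs i) (hs k) hη hη hx hx hx0 hx0, ho i k hik]
    ring

/-- `‖G₁(e) δ‖ = ‖δ‖` for `δ` in the closed span of the `W (t E) Ω`, `e ⟂ E` -/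
theorem norm_G1 {E e : H} (he : ‖e‖ = 1) (heE : ⟪e, E⟫_ℝ = 0) {δ ζ : K} (hδ : δ ∈ R.KA0 E)
    (h : R.G1 e δ ζ) : ‖ζ‖ = ‖δ‖ := by
  obtain ⟨v, hv0, hv1, -, hv3⟩ := exists_pow he heE hδ
  have h1 := hv1 0
  rw [hv0] at h1
  rw [G1_unique h h1]
  have h2 := hv3 1 1
  rw [gmom_two, inner_self_eq_norm_sq_to_K] at h2
  have h3 : ((‖v 1‖ ^ 2 : ℝ) : ℂ) = ((‖δ‖ ^ 2 : ℝ) : ℂ) := by
    push_cast
    calc (‖v 1‖ : ℂ) ^ 2 = _ := h2
      _ = _ := by simp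
  exact (sq_eq_sq₀ (norm_nonneg _) (norm_nonneg _)).1 (Complex.ofReal_injective h3)

theorem G1_commute {E e : H} (he : ‖e‖ = 1) (heE : ⟪e, E⟫_ℝ = 0) {η η' ζ ζ' : K}
    (hη : η ∈ R.KA0 E) (hη' : η' ∈ R.KA0 E) (h : R.G1 E η η') (hζ : R.G1 e η ζ)
    (hζ' : R.G1 e η' ζ') : R.G1 E ζ ζ' := by
  have key : ∀ t : ℝ, ‖(Complex.I * (t : ℂ))⁻¹ • (R.W (t • E) ζ - ζ) - ζ'‖ =
      ‖(Complex.I * (t : ℂ))⁻¹ • (R.W (t • E) η - η) - η'‖ := by
    intro t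
    refine norm_G1 he heE ?_ (G1_sub (G1_smul _ (G1_sub (G1_W _ hζ) hζ)) hζ')
    exact Submodule.sub_mem _ (Submodule.smul_mem _ _
      (Submodule.sub_mem _ (W_mem_KA0 E t hη) hη)) hη'
  have h1 := tendsto_iff_norm_sub_tendsto_zero.1 h
  exact tendsto_iff_norm_sub_tendsto_zero.2 (h1.congr fun t => (key t).symm)

theorem span_le_KA {e : H} {η : K} (hη : η ∈ R.KA) {x : K}
    (hx : x ∈ closure (Submodule.span ℂ (Set.range fun t : ℝ => R.W (t • e) η) : Set K)) :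
    x ∈ R.KA := by
  have h1 : Submodule.span ℂ (Set.range fun t : ℝ => R.W (t • e) η) ≤ R.KA := by
    rw [Submodule.span_le]
    rintro _ ⟨t, rfl⟩
    exact map_mem_KA (R.W_mem_part _) hη
  exact closure_minimal h1 (Submodule.isClosed_topologicalClosure _) hx

/-- **The averaging step.** A closed subspace `L` containing `Ω` and invariant under the operators
`c G₀(e) + d G₁(e)`, `e` a unit vector, contains all `G₁(E)^m Ω`. -/
theorem step {E0 : H} (hE0 : ‖E0‖ = 1) {E : ℕ → H} (hE : ∀ i, ‖E i‖ = 1)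
    (hEE0 : ∀ i, ⟪E i, E0⟫_ℝ = 0) (hEE : ∀ i k, i ≠ k → ⟪E i, E k⟫_ℝ = 0) {L : Submodule ℂ K}
    (hL : IsClosed (L : Set K)) {c d : ℂ} (hd : d ≠ 0)
    (hY : ∀ e ξ ξ', R.G1 e ξ ξ' → ξ ∈ L → c • R.G0 e ξ + d • ξ' ∈ L)
    {η : ℕ → K} (hη0 : η 0 = R.Ω) (hηG : ∀ k, R.G1 E0 (η k) (η (k + 1)))
    (hηK : ∀ k, η k ∈ R.KA0 E0) (hΩη : ⟪R.Ω, η 1⟫_ℂ = 0) (m : ℕ) (hm : η m ∈ L) :
    η (m + 1) ∈ L := by
  have hηKA : ∀ k, η k ∈ R.KA := fun k => KA0_le_KA E0 (hηK k)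
  choose v hv0 hvG hvmem hvin using fun (i m : ℕ) => exists_pow (R := R) (hE i) (hEE0 i) (hηK m)
  have hvKA : ∀ i m k, v i m k ∈ R.KA := fun i m k => span_le_KA (hηKA m) (hvmem i m k)
  have hG1 : ∀ i m, R.G1 (E i) (η m) (v i m 1) := fun i m => by
    have := hvG i m 0
    rwa [hv0] at this
  have hGc : ∀ i m, R.G1 E0 (v i m 1) (v i (m + 1) 1) := fun i m =>
    G1_commute (hE i) (hEE0 i) (hηK m) (hηK (m + 1)) (hηG m) (hG1 i m) (hG1 i (m + 1))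
  have hvn : ∀ i m, ‖v i m 1‖ = ‖η m‖ := fun i m => norm_G1 (hE i) (hEE0 i) (hηK m) (hG1 i m)
  have hE0E : ∀ i, ⟪E0, E i⟫_ℝ = 0 := fun i => by rw [real_inner_comm, hEE0]
  have hself : ∀ i, ⟪E i, E i⟫_ℝ = 1 := fun i => by
    rw [real_inner_self_eq_norm_sq, hE]; norm_num
  have hself0 : ⟪E0, E0⟫_ℝ = 1 := by
    rw [real_inner_self_eq_norm_sq, hE0]; norm_num
  -- the centred elements
  have hn_of : ∀ s : K →L[ℂ] K, ⟪s R.Ω, s R.Ω⟫_ℂ = 1 → ‖s R.Ω‖ ≤ 1 := by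
    intro s hs
    have h1 : ((‖s R.Ω‖ ^ 2 : ℝ) : ℂ) = ((1 : ℝ) : ℂ) := by
      rw [inner_self_eq_norm_sq_to_K] at hs
      push_cast
      exact hs
    have h2 : ‖s R.Ω‖ ^ 2 = 1 := Complex.ofReal_injective h1
    nlinarith [norm_nonneg (s R.Ω)]
  have cS : ∀ i, R.Cen false (R.G0 (E i)) := fun i => cenG _
  have nS : ∀ i, ‖R.G0 (E i) R.Ω‖ ≤ 1 := fun i => hn_of _ (by rw [inner_G1', hself]; simp)
  have oS : ∀ i k, i ≠ k → ⟪R.G0 (E i) R.Ω, R.G0 (E k) R.Ω⟫_ℂ = 0 := fun i k hik => by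
    rw [inner_G1', hEE i k hik]; simp
  have nS0 : ‖R.G0 E0 R.Ω‖ ≤ 1 := hn_of _ (by rw [inner_G1', hself0]; simp)
  have cS0S : ∀ i, R.Cen false (R.G0 E0 * R.G0 (E i)) := fun i => cenG2 (hE0E i)
  have nS0S : ∀ i, ‖(R.G0 E0 * R.G0 (E i)) R.Ω‖ ≤ 1 := fun i => hn_of _ (by
    rw [inner_G2', scMoment_four, hself, hself0, hEE0, hE0E]; simp)
  have oS0S : ∀ i k, i ≠ k →
      ⟪(R.G0 E0 * R.G0 (E i)) R.Ω, (R.G0 E0 * R.G0 (E k)) R.Ω⟫_ℂ = 0 := fun i k hik => by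
    rw [inner_G2', scMoment_four, hEE0, hEE i k hik]; simp
  have cSS0 : ∀ i, R.Cen false (R.G0 (E i) * R.G0 E0) := fun i => cenG2 (hEE0 i)
  have nSS0 : ∀ i, ‖(R.G0 (E i) * R.G0 E0) R.Ω‖ ≤ 1 := fun i => hn_of _ (by
    rw [inner_G2', scMoment_four, hself, hself0, hEE0, hE0E]; simp)
  have oSS0 : ∀ i k, i ≠ k →
      ⟪(R.G0 (E i) * R.G0 E0) R.Ω, (R.G0 (E k) * R.G0 E0) R.Ω⟫_ℂ = 0 := fun i k hik => by
    rw [inner_G2', scMoment_four, hE0E, hEE i k hik]; simp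
  have cSSS : ∀ i, R.Cen false (R.G0 (E i) * R.G0 E0 * R.G0 (E i)) := fun i => cenG3 _ _ _
  have nSSS : ∀ i, ‖(R.G0 (E i) * R.G0 E0 * R.G0 (E i)) R.Ω‖ ≤ 1 := fun i => hn_of _ (by
    rw [inner_G3', scMoment_six, scMoment_four, scMoment_four, hself, hself0, hEE0, hE0E]; simp)
  have oSSS : ∀ i k, i ≠ k →
      ⟪(R.G0 (E i) * R.G0 E0 * R.G0 (E i)) R.Ω, (R.G0 (E k) * R.G0 E0 * R.G0 (E k)) R.Ω⟫_ℂ = 0 :=
    fun i k hik => by
    rw [inner_G3', scMoment_six, scMoment_four, scMoment_four, hEE0, hEE i k hik]; simp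
  -- the weakly null sequences
  have hΩx : ∀ i k, i ≠ k → ⟪v i 0 1, v k 0 1⟫_ℂ = 0 := fun i k hik => by
    refine cross_orth (hE i) (hE k) (hEE0 i) (hEE0 k) (hEE i k hik) (hηK 0) (hvmem i 0 1)
      (hvmem k 0 1) ?_ ?_
    · have h := hvin i 0 0 1
      rw [hv0, zero_add, gmom_one] at h
      simpa using h
    · rw [hη0]
      intro h
      have := R.norm_Ω
      rw [h, norm_zero] at this
      exact zero_ne_one this
  have w1 : WN (fun i => (R.G0 (E i) * R.G0 E0 * R.G0 (E i)) (η m)) :=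
    wn_s cSSS oSSS nSSS (x := fun _ => η m) (fun _ => hηKA m) (fun _ => le_rfl)
  have w2 : WN (fun i => (R.G0 (E i) * R.G0 E0) (v i m 1)) :=
    wn_s cSS0 oSS0 nSS0 (x := fun i => v i m 1) (fun i => hvKA i m 1) (fun i => (hvn i m).le)
  have w3 : WN (fun i => R.G0 (E i) (R.Tm (R.G0 (E i)) (η m) (η 1))) :=
    wn_six cS oS nS (hηKA m) (hηKA 1) hΩη
  have w4 : WN (fun i => R.G0 (E i) (v i (m + 1) 1)) :=
    wn_s cS oS nS (x := fun i => v i (m + 1) 1) (fun i => hvKA i (m + 1) 1)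
      (fun i => (hvn i (m + 1)).le)
  have w5 : WN (fun i => R.Tm (R.G0 E0 * R.G0 (E i)) (η m) (v i 0 1)) :=
    wn_T cS0S nS0S (η := fun _ => η m) (x := fun i => v i 0 1) (fun _ => hηKA m)
      (fun i => hvKA i 0 1) (fun _ => le_rfl) (fun i => (hvn i 0).le)
      (fun i k hik => Or.inl (oS0S i k hik))
  have w6 : WN (fun i => R.Tm (R.G0 E0) (v i m 1) (v i 0 1)) :=
    wn_T (s := fun _ => R.G0 E0) (fun _ => cenG _) (fun _ => nS0) (η := fun i => v i m 1)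
      (x := fun i => v i 0 1) (fun i => hvKA i m 1) (fun i => hvKA i 0 1)
      (fun i => (hvn i m).le) (fun i => (hvn i 0).le) (fun i k hik => Or.inr (hΩx i k hik))
  have w7 : WN (fun i => R.Tm (R.G0 (E i)) (η m) (v i 1 1)) :=
    wn_T cS nS (η := fun _ => η m) (x := fun i => v i 1 1) (fun _ => hηKA m)
      (fun i => hvKA i 1 1) (fun _ => le_rfl) (fun i => (hvn i 1).le)
      (fun i k hik => Or.inl (oS i k hik))
  have hmem0 : ∀ i, η (m + 1) ∈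
      closure (Submodule.span ℂ (Set.range fun t : ℝ => R.W (t • E i) (η (m + 1))) : Set K) :=
    fun i => by
      have h := hvmem i (m + 1) 0
      rwa [hv0] at h
  have w8 : WN (fun i => v i (m + 1) 2 - η (m + 1)) := by
    by_cases hz : η (m + 1) = 0
    · have hz2 : ∀ i, v i (m + 1) 2 = 0 := fun i => by
        have h := hvin i (m + 1) 2 2
        rw [hz, norm_zero] at h
        simpa using h
      intro z
      simp only [hz2, hz, sub_zero, inner_zero_right]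
      exact tendsto_const_nhds
    · refine wn_of_orth (C := Real.sqrt (gmom 4) * ‖η (m + 1)‖ + ‖η (m + 1)‖) (fun i => ?_)
        (fun i k hik => ?_)
      · refine (norm_sub_le _ _).trans ?_
        gcongr
        have h := hvin i (m + 1) 2 2
        rw [inner_self_eq_norm_sq_to_K] at h
        have h1 : ((‖v i (m + 1) 2‖ ^ 2 : ℝ) : ℂ) = ((‖η (m + 1)‖ ^ 2 * gmom 4 : ℝ) : ℂ) := by
          push_cast
          exact h
        have h2 := Complex.ofReal_injective h1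
        have h3 : ‖v i (m + 1) 2‖ = Real.sqrt (‖η (m + 1)‖ ^ 2 * gmom 4) := by
          rw [← h2, Real.sqrt_sq (norm_nonneg _)]
        rw [h3, Real.sqrt_mul (by positivity), Real.sqrt_sq (norm_nonneg _), mul_comm]
      · refine cross_orth (hE i) (hE k) (hEE0 i) (hEE0 k) (hEE i k hik) (hηK (m + 1))
          ?_ ?_ ?_ hz
        · exact Submodule.sub_mem (Submodule.topologicalClosure _) (hvmem i (m + 1) 2) (hmem0 i)
        · exact Submodule.sub_mem (Submodule.topologicalClosure _) (hvmem k (m + 1) 2) (hmem0 k)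
        · have h := hvin i (m + 1) 0 2
          rw [hv0, zero_add, gmom_two] at h
          rw [inner_sub_right, h, inner_self_eq_norm_sq_to_K]
          simp
  -- the vectors in `L`
  have hGΩ : ∀ i, R.G1 (E i) R.Ω (v i 0 1) := fun i => by
    have := hG1 i 0
    rwa [hη0] at this
  have hGΩ0 : R.G1 E0 R.Ω (η 1) := by
    have := hηG 0
    rwa [hη0] at this
  have hΩ : R.Ω ∈ R.KA := Om_mem_KA
  set ν2 : ℕ → K := fun i => c • R.G0 E0 (c • R.G0 (E i) (η m) + d • v i m 1) +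
    d • (c • R.Tm (R.G0 (E i)) (η m) (η 1) + d • v i (m + 1) 1) with hν2
  set σ : ℕ → K := fun i => c • (c • R.Tm (R.G0 E0 * R.G0 (E i)) (η m) (v i 0 1) +
    d • R.Tm (R.G0 E0) (v i m 1) (v i 0 1)) +
    d • (c • R.Tm (R.G0 (E i)) (η m) (v i 1 1) + d • v i (m + 1) 2) with hσ
  have hν1L : ∀ i, c • R.G0 (E i) (η m) + d • v i m 1 ∈ L := fun i => hY _ _ _ (hG1 i m) hm
  have hν1G : ∀ i, R.G1 E0 (c • R.G0 (E i) (η m) + d • v i m 1)
      (c • R.Tm (R.G0 (E i)) (η m) (η 1) + d • v i (m + 1) 1) := fun i => by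
    have h1 := Tm_G1 (cS i) (hηKA m) hΩ hGΩ0
    rw [Tm_Om (cS i) (hηKA m)] at h1
    exact G1_add (G1_smul c h1) (G1_smul d (hGc i m))
  have hν2L : ∀ i, ν2 i ∈ L := fun i => hY _ _ _ (hν1G i) (hν1L i)
  have hν2G : ∀ i, R.G1 (E i) (ν2 i) (σ i) := fun i => by
    have h1 := Tm_G1 (cS0S i) (hηKA m) hΩ (hGΩ i)
    rw [Tm_Om (cS0S i) (hηKA m), mul_apply_eq_comp] at h1
    have h2 := Tm_G1 (cenG E0) (hvKA i m 1) hΩ (hGΩ i)
    rw [Tm_Om (cenG E0) (hvKA i m 1)] at h2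
    have h3 := Tm_G1 (cS i) (hηKA m) (hηKA 1) (hG1 i 1)
    have h4 := hvG i (m + 1) 1
    have h5 := G1_add (G1_smul c (G1_add (G1_smul c h1) (G1_smul d h2)))
      (G1_smul d (G1_add (G1_smul c h3) (G1_smul d h4)))
    have e1 : ν2 i = c • (c • R.G0 E0 (R.G0 (E i) (η m)) + d • R.G0 E0 (v i m 1)) +
        d • (c • R.Tm (R.G0 (E i)) (η m) (η 1) + d • v i (m + 1) 1) := by
      simp only [hν2, map_add, map_smul]
    rw [e1]
    exact h5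
  have hν3L : ∀ i, c • R.G0 (E i) (ν2 i) + d • σ i ∈ L := fun i => hY _ _ _ (hν2G i) (hν2L i)
  -- the sum of the weakly null sequences
  have wall := (((((((w1.smul (c * c * c)).add (w2.smul (c * c * d))).add
    (w3.smul (c * c * d))).add (w4.smul (c * d * d))).add (w5.smul (c * c * d))).add
    (w6.smul (c * d * d))).add (w7.smul (c * d * d))).add (w8.smul (d * d * d))
  have hexp : ∀ i, c • R.G0 (E i) (ν2 i) + d • σ i =
      ((c * c * c) • (R.G0 (E i) * R.G0 E0 * R.G0 (E i)) (η m) +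
      (c * c * d) • (R.G0 (E i) * R.G0 E0) (v i m 1) +
      (c * c * d) • R.G0 (E i) (R.Tm (R.G0 (E i)) (η m) (η 1)) +
      (c * d * d) • R.G0 (E i) (v i (m + 1) 1) +
      (c * c * d) • R.Tm (R.G0 E0 * R.G0 (E i)) (η m) (v i 0 1) +
      (c * d * d) • R.Tm (R.G0 E0) (v i m 1) (v i 0 1) +
      (c * d * d) • R.Tm (R.G0 (E i)) (η m) (v i 1 1) +
      (d * d * d) • (v i (m + 1) 2 - η (m + 1))) + (d * d * d) • η (m + 1) := by
    intro i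
    simp only [hν2, hσ, map_add, map_smul, smul_add, smul_smul, smul_sub, mul_apply_eq_comp]
    simp only [mul_comm, mul_assoc, mul_left_comm]
    abel
  have : CompleteSpace L := hL.completeSpace_coe
  rw [← Submodule.orthogonal_orthogonal L, Submodule.mem_orthogonal]
  intro z hz
  rw [Submodule.mem_orthogonal'] at hz
  have h1 := wall z
  have h2 : ∀ i, ⟪z, (c * c * c) • (R.G0 (E i) * R.G0 E0 * R.G0 (E i)) (η m) +
      (c * c * d) • (R.G0 (E i) * R.G0 E0) (v i m 1) +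
      (c * c * d) • R.G0 (E i) (R.Tm (R.G0 (E i)) (η m) (η 1)) +
      (c * d * d) • R.G0 (E i) (v i (m + 1) 1) +
      (c * c * d) • R.Tm (R.G0 E0 * R.G0 (E i)) (η m) (v i 0 1) +
      (c * d * d) • R.Tm (R.G0 E0) (v i m 1) (v i 0 1) +
      (c * d * d) • R.Tm (R.G0 (E i)) (η m) (v i 1 1) +
      (d * d * d) • (v i (m + 1) 2 - η (m + 1))⟫_ℂ = -((d * d * d) * ⟪z, η (m + 1)⟫_ℂ) := by
    intro i
    have h3 := hz _ (hν3L i)
    rw [hexp i, inner_add_right, inner_smul_right] at h3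
    exact eq_neg_of_add_eq_zero_left h3
  simp only [h2] at h1
  have h4 := tendsto_nhds_unique h1 tendsto_const_nhds
  have h5 : (d * d * d) * ⟪z, η (m + 1)⟫_ℂ = 0 := by
    rw [eq_comm, neg_eq_zero] at h4
    exact h4
  exact (mul_eq_zero.1 h5).resolve_left (mul_ne_zero (mul_ne_zero hd hd) hd)

end Realisation

end Pool.Agent.Lib.MP_2fec48_an
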