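import Mathlib
import Pool.Agent.Lib.MP_2fec48_an.Step

/-!
# `Γ_b` is the whole algebra when `H` is infinite-dimensional
-/

open Filter Topology
open scoped InnerProductSpace

namespace Pool.Agent.Lib.MP_2fec48_an

theorem mem_commVN {K : Type*} [NormedAddCommGroup K] [InnerProductSpace ℂ K] [CompleteSpace K]
    {S : Set (K →L[ℂ] K)} {x : K →L[ℂ] K} :
    x ∈ commVN S ↔ ∀ u ∈ S, u * x = x * u ∧ star u * x = x * star u := by
  change x ∈ StarSubalgebra.centralizer ℂ S ↔ _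
  exact StarSubalgebra.mem_centralizer_iff ℂ

theorem exists_orth {H : Type*} [NormedAddCommGroup H] [InnerProductSpace ℝ H] [CompleteSpace H]
    (hH : ¬ FiniteDimensional ℝ H) {e : H} (he : ‖e‖ = 1) :
    ∃ E : ℕ → H, (∀ i, ‖E i‖ = 1) ∧ (∀ i, ⟪E i, e⟫_ℝ = 0) ∧
      (∀ i k, i ≠ k → ⟪E i, E k⟫_ℝ = 0) := by
  have h0 : Orthonormal ℝ ((↑) : ({e} : Set H) → H) := by
    refine ⟨?_, ?_⟩
    · rintro ⟨x, rfl⟩; exact he
    · rintro ⟨x, rfl⟩ ⟨y, hy⟩ hxy
      exact absurd (Subtype.ext hy.symm) hxy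
  obtain ⟨w, b, hw, hb⟩ := h0.exists_hilbertBasis_extension
  have hwinf : w.Infinite := by
    intro hfin
    have := hfin.fintype
    exact hH (b.toOrthonormalBasis.toBasis.finiteDimensional_of_finite)
  have hinf : (w \ {e}).Infinite := hwinf.sdiff (Set.finite_singleton e)
  let g := hinf.natEmbedding
  have hon : Orthonormal ℝ ((↑) : w → H) := by
    rw [← hb]; exact b.orthonormal
  refine ⟨fun i => (g i : H), fun i => ?_, fun i => ?_, fun i k hik => ?_⟩
  · exact hon.1 ⟨(g i : H), (g i).2.1⟩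
  · have hne : (⟨(g i : H), (g i).2.1⟩ : w) ≠ ⟨e, hw rfl⟩ := by
      intro h
      exact (g i).2.2 (congrArg Subtype.val h)
    exact hon.2 hne
  · have hne : (⟨(g i : H), (g i).2.1⟩ : w) ≠ ⟨(g k : H), (g k).2.1⟩ := by
      intro h
      have h' : (g i : H) = (g k : H) := Subtype.mk.inj h
      exact hik (g.injective (Subtype.ext h'))
    exact hon.2 hne

namespace Realisation
variable {H : Type*} [NormedAddCommGroup H] [InnerProductSpace ℝ H]
  {K : Type*} [NormedAddCommGroup K] [InnerProductSpace ℂ K] [CompleteSpace K]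
  (R : Realisation H K)

theorem star_mem_commutant {u : K →L[ℂ] K} (hu : u ∈ Set.centralizer (R.M : Set (K →L[ℂ] K))) :
    star u ∈ Set.centralizer (R.M : Set (K →L[ℂ] K)) := by
  rw [Set.mem_centralizer_iff] at hu ⊢
  intro m hm
  have h1 := congrArg star (hu (star m) (star_mem hm))
  simpa using h1.symm

/-- the vectors `m' Ω` with `m'` in the commutant of `M` -/
noncomputable def MpOm : Submodule ℂ K :=
  (Subalgebra.toSubmodule (Subalgebra.centralizer ℂ (R.M : Set (K →L[ℂ] K)))).map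
    ((ContinuousLinearMap.apply ℂ K R.Ω) : (K →L[ℂ] K) →ₗ[ℂ] K)

theorem mem_MpOm {x : K} : x ∈ R.MpOm ↔
    ∃ u ∈ Set.centralizer (R.M : Set (K →L[ℂ] K)), u R.Ω = x := Iff.rfl

theorem dense_MpOm : Dense (R.MpOm : Set K) := by
  rw [Submodule.dense_iff_topologicalClosure_eq_top]
  set S := R.MpOm.topologicalClosure with hS
  have : CompleteSpace S := R.MpOm.isClosed_topologicalClosure.completeSpace_coe
  have hpres : ∀ u ∈ Set.centralizer (R.M : Set (K →L[ℂ] K)), ∀ x ∈ S, u x ∈ S := by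
    intro u hu x hx
    have h1 : IsClosed (u ⁻¹' (S : Set K)) :=
      R.MpOm.isClosed_topologicalClosure.preimage u.continuous
    refine closure_minimal ?_ h1 hx
    intro y hy
    obtain ⟨v, hv, rfl⟩ := (R.mem_MpOm).1 hy
    refine R.MpOm.le_topologicalClosure ?_
    exact (R.mem_MpOm).2 ⟨u * v, Set.mul_mem_centralizer hu hv, rfl⟩
  have hp : S.starProjection ∈ R.M := by
    have h1 : S.starProjection ∈ Set.centralizer (Set.centralizer (R.M : Set (K →L[ℂ] K))) := by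
      rw [Set.mem_centralizer_iff]
      intro u hu
      ext x
      have h2 := starProjection_comm S u (star u) (fun x y => by
        rw [ContinuousLinearMap.star_eq_adjoint, ContinuousLinearMap.adjoint_inner_left])
        (hpres u hu) (hpres _ (R.star_mem_commutant hu)) x
      exact h2.symm
    rw [VonNeumannAlgebra.centralizer_centralizer] at h1
    exact h1
  have hΩ : R.Ω ∈ S := by
    refine R.MpOm.le_topologicalClosure ?_
    exact (R.mem_MpOm).2 ⟨1, Set.one_mem_centralizer, rfl⟩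
  have h1 : (1 : K →L[ℂ] K) - S.starProjection = 0 := by
    refine R.faithful _ (sub_mem (one_mem _) hp) ?_
    change R.Ω - S.starProjection R.Ω = 0
    rw [Submodule.starProjection_eq_self_iff.2 hΩ, sub_self]
  rw [eq_top_iff]
  intro x _
  rw [← Submodule.starProjection_eq_self_iff]
  have h2 := congrArg (fun T : K →L[ℂ] K => T x) h1
  have h3 : x - S.starProjection x = 0 := h2
  exact (sub_eq_zero.1 h3).symm

theorem commutant_comm {u : K →L[ℂ] K} (hu : u ∈ Set.centralizer (R.M : Set (K →L[ℂ] K)))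
    {x : K →L[ℂ] K} (hx : x ∈ R.M) (y : K) : x (u y) = u (x y) := by
  have h := Set.mem_centralizer_iff.1 hu x hx
  exact congrArg (fun T : K →L[ℂ] K => T y) h

theorem norm_star_Om {x : K →L[ℂ] K} (hx : x ∈ R.M) : ‖(star x) R.Ω‖ = ‖x R.Ω‖ := by
  have h1 := inner_eq_tau R (star x) (star x)
  have h2 := inner_eq_tau R x x
  rw [star_star, R.tau_comm hx (star_mem hx), ← h2, inner_self_eq_norm_sq_to_K,
    inner_self_eq_norm_sq_to_K] at h1
  have h3 : ((‖(star x) R.Ω‖ ^ 2 : ℝ) : ℂ) = ((‖x R.Ω‖ ^ 2 : ℝ) : ℂ) := by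
    push_cast; exact h1
  exact (sq_eq_sq₀ (norm_nonneg _) (norm_nonneg _)).1 (Complex.ofReal_injective h3)

variable {R}

theorem G1_Om_exists (f : H) : ∃ y, R.G1 f R.Ω y := by
  by_cases hf : f = 0
  · refine ⟨0, ?_⟩
    have : (fun t : ℝ => (Complex.I * (t : ℂ))⁻¹ • (R.W (t • f) R.Ω - R.Ω)) = fun _ => 0 := by
      funext t
      rw [hf, smul_zero, R.W_zero]
      simp
    rw [G1, this]
    exact tendsto_const_nhds
  · have hn : ‖f‖ ≠ 0 := norm_ne_zero_iff.2 hf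
    have he : ‖(‖f‖⁻¹ : ℝ) • f‖ = 1 := by
      rw [norm_smul, norm_inv, norm_norm, inv_mul_cancel₀ hn]
    obtain ⟨v, hv0, hv1, -⟩ := exists_pow0 (R := R) he
    have h1 := hv1 0
    rw [hv0] at h1
    refine ⟨(‖f‖ : ℂ) • v 1, ?_⟩
    have h2 : Tendsto (fun t : ℝ => t * ‖f‖) (𝓝[≠] 0) (𝓝[≠] 0) := by
      refine tendsto_nhdsWithin_iff.2 ⟨?_, ?_⟩
      · have : Tendsto (fun t : ℝ => t * ‖f‖) (𝓝 0) (𝓝 (0 * ‖f‖)) :=
          (continuous_id.mul continuous_const).tendsto 0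
        rw [zero_mul] at this
        exact this.mono_left nhdsWithin_le_nhds
      · filter_upwards [self_mem_nhdsWithin] with t ht
        exact mul_ne_zero ht hn
    have h3 := (Tendsto.comp h1 h2).const_smul (‖f‖ : ℂ)
    refine h3.congr' ?_
    filter_upwards [self_mem_nhdsWithin] with t ht
    have ht' : (t : ℂ) ≠ 0 := by exact_mod_cast ht
    have hn' : (‖f‖ : ℂ) ≠ 0 := by exact_mod_cast hn
    simp only [Function.comp]
    rw [smul_smul, smul_smul, mul_assoc, mul_inv_cancel₀ hn, mul_one]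
    congr 1
    push_cast
    field_simp

/-- the graph of `Y_b f` as a subspace -/
def GY (R : Realisation H K) (b : ℝ) (f : H) : Submodule ℂ (K × K) where
  carrier := {p | R.Y b f p.1 p.2}
  zero_mem' := by
    refine ⟨0, ?_, by simp⟩
    change Tendsto _ _ _
    simp only [Prod.fst_zero, map_zero, sub_zero, smul_zero]
    exact tendsto_const_nhds
  add_mem' := by
    rintro p q ⟨η, h1, h2⟩ ⟨η', h1', h2'⟩
    refine ⟨η + η', G1_add h1 h1', ?_⟩
    rw [Prod.snd_add, h2, h2', Prod.fst_add, map_add, smul_add, smul_add]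
    abel
  smul_mem' := by
    rintro c p ⟨η, h1, h2⟩
    refine ⟨c • η, G1_smul c h1, ?_⟩
    rw [Prod.smul_snd, h2, Prod.smul_fst, map_smul, smul_add, smul_comm c, smul_comm c]

theorem mem_GY {b : ℝ} {f : H} {p : K × K} : p ∈ R.GY b f ↔ R.Y b f p.1 p.2 := Iff.rfl

theorem Y_symm {b : ℝ} {f : H} {x y x' y' : K} (h : R.Y b f x y) (h' : R.Y b f x' y') :
    ⟪y, x'⟫_ℂ = ⟪x, y'⟫_ℂ := by
  obtain ⟨η, h1, h2⟩ := h
  obtain ⟨η', h1', h2'⟩ := h'
  have h3 : ⟪R.G0 f x, x'⟫_ℂ = ⟪x, R.G0 f x'⟫_ℂ := by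
    conv_lhs => rw [← R.G0_star]
    rw [ContinuousLinearMap.star_eq_adjoint, ContinuousLinearMap.adjoint_inner_left]
  rw [h2, h2', inner_add_left, inner_add_right, inner_smul_left, inner_smul_left,
    inner_smul_right, inner_smul_right, h3, G1_symm h1 h1', Complex.conj_ofReal,
    Complex.conj_ofReal]

theorem mem_commY_of_comm {b : ℝ} {u : K →L[ℂ] K} (hG : ∀ f, u * R.G0 f = R.G0 f * u)
    (hW : ∀ f, u * R.W f = R.W f * u) : u ∈ R.commY b := by
  have key : ∀ u : K →L[ℂ] K, (∀ f, u * R.G0 f = R.G0 f * u) → (∀ f, u * R.W f = R.W f * u) →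
      ∀ f ξ ζ, R.Y b f ξ ζ → R.Y b f (u ξ) (u ζ) := by
    rintro u hG hW f ξ ζ ⟨η, h1, h2⟩
    refine ⟨u η, G1_comm hW h1, ?_⟩
    have h3 := congrArg (fun T : K →L[ℂ] K => T ξ) (hG f)
    simp only [mul_apply_eq_comp] at h3
    rw [h2, map_add, map_smul, map_smul, h3]
  intro f ξ ζ h
  refine ⟨key u hG hW f ξ ζ h, key (star u) (fun g => ?_) (fun g => ?_) f ξ ζ h⟩
  · have h1 := congrArg star (hG g)
    rw [star_mul, star_mul, R.G0_star] at h1
    exact h1.symm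
  · have h1 := congrArg star (hW (-g))
    rw [star_mul, star_mul, R.W_star, neg_neg] at h1
    exact h1.symm

theorem star_mem_commY {b : ℝ} {u : K →L[ℂ] K} (hu : u ∈ R.commY b) : star u ∈ R.commY b := by
  intro f ξ ζ h
  rw [star_star]
  exact ⟨(hu f ξ ζ h).2, (hu f ξ ζ h).1⟩

theorem mem_Gam {b : ℝ} {x : K →L[ℂ] K} :
    x ∈ R.Gam b ↔ x ∈ Set.centralizer (R.commY b) := by
  rw [Gam, mem_commVN, Set.mem_centralizer_iff]
  exact ⟨fun h u hu => (h u hu).1, fun h u hu => ⟨h u hu, h _ (star_mem_commY hu)⟩⟩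

theorem commutant_sub_commY {b : ℝ} {u : K →L[ℂ] K}
    (hu : u ∈ Set.centralizer (R.M : Set (K →L[ℂ] K))) : u ∈ R.commY b :=
  mem_commY_of_comm (fun f => (Set.mem_centralizer_iff.1 hu _ (R.G0_mem f)).symm)
    (fun f => (Set.mem_centralizer_iff.1 hu _ (R.W_mem f)).symm)

theorem Gam_le_M {b : ℝ} {x : K →L[ℂ] K} (hx : x ∈ R.Gam b) : x ∈ R.M := by
  rw [mem_Gam] at hx
  have h1 : x ∈ Set.centralizer (Set.centralizer (R.M : Set (K →L[ℂ] K))) :=
    Set.centralizer_subset (fun u hu => commutant_sub_commY hu) hx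
  rw [VonNeumannAlgebra.centralizer_centralizer] at h1
  exact h1

/-- the subspace `Γ_b Ω` -/
noncomputable def GOm (R : Realisation H K) (b : ℝ) : Submodule ℂ K :=
  (Subalgebra.toSubmodule (Subalgebra.centralizer ℂ (R.commY b))).map
    ((ContinuousLinearMap.apply ℂ K R.Ω) : (K →L[ℂ] K) →ₗ[ℂ] K)

theorem mem_GOm {b : ℝ} {x : K} : x ∈ R.GOm b ↔ ∃ u ∈ R.Gam b, u R.Ω = x := by
  constructor
  · rintro ⟨u, hu, rfl⟩
    exact ⟨u, mem_Gam.2 hu, rfl⟩
  · rintro ⟨u, hu, rfl⟩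
    exact ⟨u, mem_Gam.1 hu, rfl⟩

/-- the closed subspace `L` spanned by `Γ_b Ω` -/
noncomputable def LL (R : Realisation H K) (b : ℝ) : Submodule ℂ K := (R.GOm b).topologicalClosure

theorem LL_closed {b : ℝ} : IsClosed (R.LL b : Set K) := (R.GOm b).isClosed_topologicalClosure

theorem Om_mem_LL {b : ℝ} : R.Ω ∈ R.LL b :=
  (R.GOm b).le_topologicalClosure (mem_GOm.2 ⟨1, one_mem _, rfl⟩)

theorem Gam_LL {b : ℝ} {u : K →L[ℂ] K} (hu : u ∈ R.Gam b) {x : K} (hx : x ∈ R.LL b) :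
    u x ∈ R.LL b := by
  have h1 : IsClosed (u ⁻¹' (R.LL b : Set K)) := LL_closed.preimage u.continuous
  refine closure_minimal ?_ h1 hx
  intro y hy
  obtain ⟨v, hv, rfl⟩ := mem_GOm.1 hy
  refine (R.GOm b).le_topologicalClosure ?_
  exact mem_GOm.2 ⟨u * v, mul_mem hu hv, rfl⟩

/-- `Γ_b Ω` has closure invariant under `Y_b f` -/
theorem Y_mem_LL {b : ℝ} {f : H} {ξ ζ : K} (h : R.Y b f ξ ζ) (hξ : ξ ∈ R.LL b) :
    ζ ∈ R.LL b := by
  have : CompleteSpace (R.LL b) := LL_closed.completeSpace_coe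
  have h1 : (R.LL b).starProjection ζ = ζ := by
    refine reduce_mem (R.GY b f) (R.commY b) (fun u hu => star_mem_commY hu)
      (fun u hu p hp => (hu f p.1 p.2 hp).1) (R.LL b).starProjection ?_
      (fun p hp q hq => Y_symm hp hq) ?_ (ξ := ξ) h (Submodule.starProjection_eq_self_iff.2 hξ)
    · intro x hx
      have hx' : x ∈ R.Gam b := mem_Gam.2 hx
      ext y
      have h2 := starProjection_comm (R.LL b) x (star x) (fun x y => by
        rw [ContinuousLinearMap.star_eq_adjoint, ContinuousLinearMap.adjoint_inner_left])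
        (fun z hz => Gam_LL hx' hz) (fun z hz => Gam_LL (star_mem hx') hz) y
      exact h2.symm
    · refine R.dense_MpOm.mono ?_
      intro x hx
      obtain ⟨u, hu, rfl⟩ := (R.mem_MpOm).1 hx
      obtain ⟨y, hy⟩ := G1_Om_exists (R := R) f
      refine ⟨(Real.sqrt (1 - b) : ℂ) • R.G0 f (u R.Ω) + (Real.sqrt b : ℂ) • u y, u y, G1_comm (fun g => (Set.mem_centralizer_iff.1 hu _ (R.W_mem g)).symm) hy, rfl⟩
  exact Submodule.starProjection_eq_self_iff.1 h1

/-- an element of `M` whose vector is in the closure of `Γ_b Ω` is in `Γ_b` -/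
theorem mem_Gam_of_vec {b : ℝ} {x : K →L[ℂ] K} (hx : x ∈ R.M) (h : x R.Ω ∈ R.LL b) :
    x ∈ R.Gam b := by
  have h0 : x R.Ω ∈ closure (R.GOm b : Set K) := h
  obtain ⟨w, hw, hlim⟩ := mem_closure_iff_seq_limit.1 h0
  choose n hn hnw using fun k => mem_GOm.1 (hw k)
  have hlim' : Tendsto (fun k => n k R.Ω) atTop (𝓝 (x R.Ω)) := by
    simpa only [hnw] using hlim
  have hlims : Tendsto (fun k => (star (n k)) R.Ω) atTop (𝓝 ((star x) R.Ω)) := by
    rw [tendsto_iff_norm_sub_tendsto_zero] at hlim' ⊢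
    refine hlim'.congr fun k => ?_
    have h1 := R.norm_star_Om (sub_mem (Gam_le_M (hn k)) hx)
    rw [star_sub] at h1
    simpa using h1.symm
  have hA : ∀ u ∈ Set.centralizer (R.M : Set (K →L[ℂ] K)),
      Tendsto (fun k => n k (u R.Ω)) atTop (𝓝 (x (u R.Ω))) := by
    intro u hu
    rw [R.commutant_comm hu hx]
    refine ((u.continuous.tendsto _).comp hlim').congr fun k => ?_
    exact (R.commutant_comm hu (Gam_le_M (hn k)) _).symm
  have hB : ∀ u ∈ Set.centralizer (R.M : Set (K →L[ℂ] K)),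
      Tendsto (fun k => (star (n k)) (u R.Ω)) atTop (𝓝 ((star x) (u R.Ω))) := by
    intro u hu
    rw [R.commutant_comm hu (star_mem hx)]
    refine ((u.continuous.tendsto _).comp hlims).congr fun k => ?_
    exact (R.commutant_comm hu (star_mem (Gam_le_M (hn k))) _).symm
  rw [mem_Gam, Set.mem_centralizer_iff]
  intro u hu
  have key : ∀ p ∈ R.MpOm, ∀ q ∈ R.MpOm, ⟪p, (u * x - x * u) q⟫_ℂ = 0 := by
    intro p hp q hq
    obtain ⟨m1, hm1, rfl⟩ := (R.mem_MpOm).1 hp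
    obtain ⟨m2, hm2, rfl⟩ := (R.mem_MpOm).1 hq
    have h1 : ∀ k, ⟪m1 R.Ω, u (n k (m2 R.Ω))⟫_ℂ - ⟪(star (n k)) (m1 R.Ω), u (m2 R.Ω)⟫_ℂ = 0 := by
      intro k
      rw [ContinuousLinearMap.star_eq_adjoint, ContinuousLinearMap.adjoint_inner_left]
      have h2 := Set.mem_centralizer_iff.1 (mem_Gam.1 (hn k)) u hu
      have h3 : u (n k (m2 R.Ω)) = n k (u (m2 R.Ω)) :=
        congrArg (fun T : K →L[ℂ] K => T (m2 R.Ω)) h2
      rw [h3, sub_self]
    have h4 : Tendsto (fun k => ⟪m1 R.Ω, u (n k (m2 R.Ω))⟫_ℂ -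
        ⟪(star (n k)) (m1 R.Ω), u (m2 R.Ω)⟫_ℂ) atTop
        (𝓝 (⟪m1 R.Ω, u (x (m2 R.Ω))⟫_ℂ - ⟪(star x) (m1 R.Ω), u (m2 R.Ω)⟫_ℂ)) := by
      refine Tendsto.sub ?_ ?_
      · exact Tendsto.inner tendsto_const_nhds ((u.continuous.tendsto _).comp (hA m2 hm2))
      · exact Tendsto.inner (hB m1 hm1) tendsto_const_nhds
    simp only [h1] at h4
    have h5 := tendsto_nhds_unique h4 tendsto_const_nhds
    rw [ContinuousLinearMap.star_eq_adjoint, ContinuousLinearMap.adjoint_inner_left] at h5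
    change ⟪m1 R.Ω, u (x (m2 R.Ω)) - x (u (m2 R.Ω))⟫_ℂ = 0
    rw [inner_sub_right]
    exact h5
  have h6 : ∀ q ∈ R.MpOm, (u * x - x * u) q = 0 := by
    intro q hq
    have h7 : ∀ p : K, ⟪p, (u * x - x * u) q⟫_ℂ = 0 := by
      intro p
      have hcl : IsClosed {p : K | ⟪p, (u * x - x * u) q⟫_ℂ = 0} :=
        isClosed_eq (by fun_prop) (by fun_prop)
      exact closure_minimal (fun p hp => key p hp q hq) hcl (R.dense_MpOm p)
    exact inner_self_eq_zero.1 (h7 _)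
  have h8 : ∀ q : K, (u * x - x * u) q = 0 := by
    intro q
    have hcl : IsClosed {q : K | (u * x - x * u) q = 0} :=
      isClosed_eq (by fun_prop) (by fun_prop)
    exact closure_minimal h6 hcl (R.dense_MpOm q)
  have h9 : u * x - x * u = 0 := by
    ext q; exact h8 q
  exact sub_eq_zero.1 h9

/-- both families lie in `Γ_b`: unit vectors -/
theorem unit_mem [CompleteSpace H] (hH : ¬ FiniteDimensional ℝ H) {b : ℝ} (hb0 : 0 < b)
    (hb1 : b < 1) {e : H} (he : ‖e‖ = 1) :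
    R.G0 e ∈ R.Gam b ∧ ∀ t : ℝ, R.W (t • e) ∈ R.Gam b := by
  obtain ⟨E, hE, hEe, hEE⟩ := exists_orth hH he
  obtain ⟨η, hη0, hηG, hηK, hηin, hηz⟩ := exists_pow0 (R := R) he
  have hc : (Real.sqrt (1 - b) : ℂ) ≠ 0 := by
    exact_mod_cast (Real.sqrt_pos.2 (by linarith)).ne'
  have hd : (Real.sqrt b : ℂ) ≠ 0 := by
    exact_mod_cast (Real.sqrt_pos.2 hb0).ne'
  have hY : ∀ e ξ ξ', R.G1 e ξ ξ' → ξ ∈ R.LL b →
      (Real.sqrt (1 - b) : ℂ) • R.G0 e ξ + (Real.sqrt b : ℂ) • ξ' ∈ R.LL b :=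
    fun e ξ ξ' h hξ => Y_mem_LL ⟨ξ', h, rfl⟩ hξ
  have hΩη : ⟪R.Ω, η 1⟫_ℂ = 0 := by
    have h := hηin 0 1
    rw [hη0, zero_add, gmom_one] at h
    simpa using h
  have hall : ∀ m, η m ∈ R.LL b := by
    intro m
    induction m with
    | zero => rw [hη0]; exact Om_mem_LL
    | succ m ih =>
      exact step he hE hEe hEE LL_closed hd hY hη0 hηG hηK hΩη m ih
  have : CompleteSpace (R.LL b) := LL_closed.completeSpace_coe
  refine ⟨mem_Gam_of_vec (R.G0_mem e) ?_, fun t => mem_Gam_of_vec (R.W_mem _) ?_⟩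
  · have h1 := hηG 0
    rw [hη0] at h1
    have h2 := hY _ _ _ h1 Om_mem_LL
    have h3 := Submodule.sub_mem _ h2 (Submodule.smul_mem _ (Real.sqrt b : ℂ) (hall 1))
    rw [add_sub_cancel_right] at h3
    have h4 := Submodule.smul_mem _ (Real.sqrt (1 - b) : ℂ)⁻¹ h3
    rwa [smul_smul, inv_mul_cancel₀ hc, one_smul] at h4
  · rw [← Submodule.orthogonal_orthogonal (R.LL b), Submodule.mem_orthogonal]
    intro z hz
    rw [Submodule.mem_orthogonal'] at hz
    exact hηz z (fun k => hz _ (hall k)) t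

theorem all_mem [CompleteSpace H] (hH : ¬ FiniteDimensional ℝ H) {b : ℝ} (hb0 : 0 < b)
    (hb1 : b < 1) (f : H) : R.G0 f ∈ R.Gam b ∧ R.W f ∈ R.Gam b := by
  by_cases hf : f = 0
  · rw [hf, map_zero, R.W_zero]
    exact ⟨zero_mem _, one_mem _⟩
  · have hn : ‖f‖ ≠ 0 := norm_ne_zero_iff.2 hf
    have he : ‖(‖f‖⁻¹ : ℝ) • f‖ = 1 := by
      rw [norm_smul, norm_inv, norm_norm, inv_mul_cancel₀ hn]
    obtain ⟨h1, h2⟩ := unit_mem (R := R) hH hb0 hb1 he
    have h3 : ‖f‖ • ((‖f‖⁻¹ : ℝ) • f) = f := by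
      rw [smul_smul, mul_inv_cancel₀ hn, one_smul]
    refine ⟨?_, ?_⟩
    · have h4 : R.G0 f = (‖f‖ : ℂ) • R.G0 ((‖f‖⁻¹ : ℝ) • f) := by
        conv_lhs => rw [← h3]
        rw [map_smul]
        rfl
      rw [h4]
      exact mem_Gam.2 (Subalgebra.smul_mem (Subalgebra.centralizer ℂ _) (mem_Gam.1 h1) _)
    · have := h2 ‖f‖
      rwa [h3] at this

theorem Gam_eq_All [CompleteSpace H] (hH : ¬ FiniteDimensional ℝ H) {b : ℝ} (hb0 : 0 < b)
    (hb1 : b < 1) : R.Gam b = R.All := by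
  refine VonNeumannAlgebra.ext fun x => ?_
  rw [All, mem_commVN, mem_Gam, Set.mem_centralizer_iff]
  constructor
  · intro h u hu
    have hu' : u ∈ R.commY b := by
      rw [Set.mem_centralizer_iff] at hu
      exact mem_commY_of_comm (fun f => (hu _ (Or.inl ⟨f, rfl⟩)).symm)
        (fun f => (hu _ (Or.inr ⟨f, rfl⟩)).symm)
    exact ⟨h u hu', h _ (star_mem_commY hu')⟩
  · intro h u hu
    refine (h u ?_).1
    rw [Set.mem_centralizer_iff]
    rintro m (⟨f, rfl⟩ | ⟨f, rfl⟩)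
    · exact (Set.mem_centralizer_iff.1 (mem_Gam.1 (all_mem hH hb0 hb1 f).1) u hu).symm
    · exact (Set.mem_centralizer_iff.1 (mem_Gam.1 (all_mem hH hb0 hb1 f).2) u hu).symm

end Realisation

end Pool.Agent.Lib.MP_2fec48_an
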